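import Pool.Agent.J4H81.GB.Fin
import Pool.Agent.J4H32.MV.Main
import Pool.Agent.J4H98.GB.Ev
import Pool.Agent.J4H17.GB.Ref
import Pool.Agent.J4H84.GB.Rcg

/-!
# Project GB: simultaneous Goldbach (helper81, with helpers 17, 32, 84, 98, after project MV of helper32)
-/

set_option autoImplicit false

namespace Pool.Agent.J4H81.GB

open Finset Filter
open Pool.Agent.J4H32.MV (u_TE u_MD u_MB u_RC u_BD u_CH)

open Classical in
/-- for all but few vectors `N` there are primes `n` with all the `N_i - n` prime -/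
theorem main (k : ℕ) : ∀ᶠ X : ℕ in atTop,
    (((Fintype.piFinset (fun _ : Fin k => Ioc X (2 * X))).filter (fun m => AdG m ∧
      (Gn m X : ℝ) < X * Real.exp (-(Real.log X / Real.log (Real.log X) ^ 4)))).card : ℝ) ≤
      (X : ℝ) ^ k * Real.exp (-(Real.log X / Real.log (Real.log X) ^ 13)) :=
  fin3G u_TE (Pool.Agent.J4H98.GB.t_MZ.1 u_MD) Pool.Agent.J4H98.GB.t_EV Pool.Agent.J4H17.GB.t_REF u_RC Pool.Agent.J4H84.GB.t_RCG
    (Pool.Agent.J4H98.GB.t_MZ.2 u_MB) Pool.Agent.J4H6.MV.t_CN Pool.Agent.J4H68.MV.t_PS u_BD u_CH k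

end Pool.Agent.J4H81.GB
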