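import Pool.Agent.J4H81.GB.FinX
import Pool.Agent.J4H81.GB.Main
import Pool.Agent.J4H18.GB.Bdx
import Pool.Agent.J4H57.GB.Rcx

/-!
# Project GX: Goldbach representations and constellations at the same time (helper81, with helpers 17, 18, 32, 57, 98)
-/

set_option autoImplicit false

namespace Pool.Agent.J4H81.GB

open Finset Filter
open Pool.Agent.J4H32.MV (u_TE u_MD u_MB u_RC u_CH)

open Classical in
/-- for all but few vectors `x` there are primes `n` for which all the `x_i - n` and `n + x_i` (according to the sign) are prime -/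
theorem mainX (k : ℕ) (σ : Fin k → Bool) : ∀ᶠ X : ℕ in atTop,
    (((Fintype.piFinset (fun i : Fin k => rg (σ i) X)).filter (fun m => AdX σ m ∧
      (GX σ m X : ℝ) < 2 * (X * Real.exp (-(Real.log X / Real.log (Real.log X) ^ 4))))).card : ℝ) ≤
      (X : ℝ) ^ k * Real.exp (-(Real.log X / Real.log (Real.log X) ^ 13)) :=
  fin3X u_TE (Pool.Agent.J4H98.GB.t_MZ.1 u_MD) Pool.Agent.J4H98.GB.t_EV Pool.Agent.J4H17.GB.t_REF u_RC Pool.Agent.J4H57.GB.t_RCX
    (Pool.Agent.J4H98.GB.t_MZ.2 u_MB) Pool.Agent.J4H6.MV.t_CN Pool.Agent.J4H68.MV.t_PS Pool.Agent.J4H68.MV.t_RK Pool.Agent.J4H18.GB.t_BDX u_CH k σ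

end Pool.Agent.J4H81.GB
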