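import Pool.Agent.J4H81.GB.Stm

/-!
# Project GX: Goldbach representations and constellations at the same time (helper81), exact statements

`p`, all `N_i - p` and all `p + m_j` prime, for all but few vectors `(N, m)`.
-/

set_option autoImplicit false

namespace Pool.Agent.J4H81.GB

open Finset MeasureTheory Filter
open Pool.Agent.J4H81.PT Pool.Agent.J4H32.MV

/-- signed shifts: `0`, then `- x_i` (form `x_i - p`, up to sign) if `σ i`, and `x_i` (form `p + x_i`) otherwise -/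
def es {k : ℕ} (σ : Fin k → Bool) (x : Fin k → ℕ) : Fin (k + 1) → ℤ := Fin.cons 0 (fun i => if σ i then -(x i : ℤ) else (x i : ℤ))

open Classical in
/-- (BDX) as `S_BD` of J4H32.MV.S5 (proof in J4H19/MV/Bd.lean, from `S_RK`), now some of the differences are sums `x_i + x_j ≤ 2 X` -/
def S_BDX : Prop := S_RK → ∀ (k w X : ℕ) (σ : Fin k → Bool) (ε : ℝ), 1 ≤ w → 1 ≤ X →
  (((Fintype.piFinset (fun _ : Fin k => Icc 1 X)).filter (fun x => ∃ i j : Fin (k + 1), i ≠ j ∧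
    (es σ x i = es σ x j ∨ ε < Sg w (es σ x i - es σ x j)))).card : ℝ) ≤
    ((k : ℝ) + 1) ^ 2 * ((X : ℝ) ^ k / X + 16 * (X : ℝ) ^ k * Real.exp (-(ε * w)))

/-- no local obstruction -/
def AdX {k : ℕ} (σ : Fin k → Bool) (x : Fin k → ℕ) : Prop := ∀ p : ℕ, p.Prime → ∃ r : ℕ, ∀ j, ¬ (p : ℤ) ∣ (r : ℤ) + es σ x j

/-- (RCX) as `S_RCG` (J4H84/GB/Rcg.lean, J4H49/GB/Rcg.lean) for the mixed forms -/
def S_RCX : Prop := S_RC → ∀ (k w : ℕ) (σ : Fin k → Bool) (B : Finset (ZMod (primorial w))), k + 1 ≤ w → 2 ≤ w →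
  2 * ((k + 1 : ℕ) : ℝ) * B.card * ((2 * ((k + 1 : ℕ) : ℝ)) ^ (2 * (k + 1)) * (w : ℝ) ^ (2 * (k + 1))) < primorial w → ∀ ρ : Fin k → ℕ,
  ∃ b < primorial w, ∀ x : Fin k → ℕ, AdX σ x → (fun i => x i % primorial w) = ρ →
    (b.Coprime (primorial w) ∧ (b : ZMod (primorial w)) ∉ B) ∧
    ∀ i, (σ i = true → IsUnit ((x i : ZMod (primorial w)) - (b : ZMod (primorial w))) ∧ ((x i : ZMod (primorial w)) - (b : ZMod (primorial w))) ∉ B) ∧
      (σ i = false → IsUnit ((b : ZMod (primorial w)) + (x i : ZMod (primorial w))) ∧ ((b : ZMod (primorial w)) + (x i : ZMod (primorial w))) ∉ B)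

end Pool.Agent.J4H81.GB
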