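import Pool.Agent.J4H81.GB.ClsX

/-!
# Project GY: the two-sided correlations in good classes (for project GY of helper32)
-/

set_option autoImplicit false

namespace Pool.Agent.J4H81.GB

open Finset MeasureTheory Filter
open Pool.Agent.J4H81.PT Pool.Agent.J4H32.MV

theorem coreG2 (hTE : S_TE) (hMD : S_MDZ) {K T S₀ W Q w : ℕ} {B₀ m₀ E a a₁ τ ε δ : ℝ} {A : Set ℝ} (hA : MeasurableSet A)
    (hw : 2 ≤ w) (hQ1 : 1 ≤ Q) (hWw : ∀ p : ℕ, p.Prime → p ≤ w → p ∣ W) (hB1 : 1 ≤ B₀) (hm0 : 0 ≤ m₀)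
    (F v : Fin K → ℕ → ℝ) (D : Fin K → ℤ)
    (hF0 : ∀ j s, 0 ≤ F j s) (hFB : ∀ j s, F j s ≤ B₀) (hFz : ∀ j s, T ≤ s → F j s = 0)
    (hv0 : ∀ j s, 0 ≤ v j s) (hv1 : ∀ j s, v j s ≤ 1) (hvz : ∀ j s, T ≤ s → v j s = 0)
    (hvar : ∀ j t, ∑ s ∈ range T, |v j (s + 1 + t) - v j (s + t)| ≤ 3)
    (hen : ∀ j, ∫ α in (0 : ℝ)..1, A.indicator (fun α => ‖hat (cx (fun s => F j s - v j s * GG W Q (D j + W * s))) T α‖ ^ 2) α ≤ E)
    (hmin : ∀ j, ∀ α : ℝ, α ∉ A → ‖hat (cx (fun s => F j s - v j s * GG W Q (D j + W * s))) T α‖ ≤ m₀)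
    (hMB : ∀ (C : Fin K → ℤ) (S : Finset (Fin K)), ∑ s ∈ range T, ∏ j ∈ S, GG W Q (C j + W * s) ^ 2 ≤ a₁)
    (ha : B₀ ^ (2 * K) * a₁ ≤ a) (hτ : 0 < τ)
    (hS1 : S₀ ≤ T) (hε0 : 0 ≤ ε)
    (hδ : 2 ^ K * ((K : ℝ) + 2) * (2 / w + K ^ 2 * ε) ≤ δ) (hδ1 : δ ≤ 1) :
    ∃ Ex : Finset (Fin K → ℕ), (Ex.card : ℝ) ≤ K * (2 * m₀ ^ 2 * a / τ ^ 2) * (T : ℝ) ^ (K - 1) ∧
      ∀ t : Fin K → ℕ, (∀ j, t j < T) → t ∉ Ex → Function.Injective (fun j => D j + W * t j) →
        (∀ i j, Sg w ((D i + W * t i) - (D j + W * t j)) ≤ ε) →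
        (∀ s < S₀, ∀ j, v j (s + t j) = 1) →
        |∑ s ∈ range S₀, ∏ j, F j (s + t j) - S₀| ≤
          2 * δ * S₀ + 2 * (Q : ℝ) ^ (2 * K) * (3 * K + 2) + K * (Real.sqrt (E * a) + τ) := by
  classical
  have hB0 : 0 ≤ B₀ := by linarith
  have hT0 : (0 : ℝ) ≤ T := Nat.cast_nonneg _
  have hgz : ∀ (j : Fin K) s, T ≤ s → v j s * GG W Q (D j + W * s) = 0 := by
    intro j s hs
    rw [hvz j s hs, zero_mul]
  -- the mean squares
  have hsq : ∀ (i : Fin K) (t : Fin K → ℕ), ∑ s ∈ range T,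
      ((∏ j ∈ univ.filter (fun j => j < i), (fun (j : Fin K) (s : ℕ) => v j s * GG W Q (D j + W * s)) j (s + t j)) *
        ∏ j ∈ univ.filter (fun j => i < j), F j (s + t j)) ^ 2 ≤ a := by
    intro i t
    refine le_trans ?_ ha
    have h1 := hMB (fun j => D j + W * t j) (univ.filter (fun j => j < i))
    refine le_trans ?_ (mul_le_mul_of_nonneg_left h1 (by positivity))
    rw [mul_sum]
    apply sum_le_sum
    intro s _
    rw [mul_pow, mul_comm]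
    apply mul_le_mul
    · have h2 : |∏ j ∈ univ.filter (fun j => i < j), F j (s + t j)| ≤ B₀ ^ K := by
        rw [abs_prod]
        calc ∏ j ∈ univ.filter (fun j => i < j), |F j (s + t j)| ≤ ∏ j ∈ univ.filter (fun j : Fin K => i < j), B₀ := by
              apply prod_le_prod (fun _ _ => abs_nonneg _)
              intro j _
              rw [abs_of_nonneg (hF0 _ _)]
              exact hFB _ _
          _ = B₀ ^ (univ.filter (fun j : Fin K => i < j)).card := by rw [prod_const]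
          _ ≤ B₀ ^ K := by
              apply pow_le_pow_right₀ hB1
              refine (card_filter_le _ _).trans ?_
              rw [card_univ, Fintype.card_fin]
      rw [← sq_abs]
      calc _ ≤ (B₀ ^ K) ^ 2 := pow_le_pow_left₀ (abs_nonneg _) h2 2
        _ = B₀ ^ (2 * K) := by rw [← pow_mul]; congr 1; ring
    · rw [← prod_pow]
      apply prod_le_prod (fun _ _ => sq_nonneg _)
      intro j _
      have e : D j + (W : ℤ) * ((s + t j : ℕ) : ℤ) = D j + W * t j + W * s := by push_cast; ring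
      beta_reduce
      rw [e, mul_pow]
      have h3 : v j (s + t j) ^ 2 ≤ 1 := pow_le_one₀ (hv0 _ _) (hv1 _ _)
      calc _ ≤ 1 * GG W Q (D j + W * t j + W * s) ^ 2 := mul_le_mul_of_nonneg_right h3 (sq_nonneg _)
        _ = _ := one_mul _
    · exact sq_nonneg _
    · positivity
  have hte := hTE K T S₀ F (fun (j : Fin K) (s : ℕ) => v j s * GG W Q (D j + W * s)) A E m₀ a τ hA hS1
    hFz hgz hm0 hτ hen (fun j α _ _ hα => hmin j α hα) hsq
  refine ⟨_, hte, ?_⟩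
  intro t ht hEx hinj hSg hv1'
  have h1 : |∑ s ∈ range S₀, (∏ j, F j (s + t j) - ∏ j, (fun (j : Fin K) (s : ℕ) => v j s * GG W Q (D j + W * s)) j (s + t j))| ≤
      K * (Real.sqrt (E * a) + τ) := by
    by_contra hcon
    push Not at hcon
    apply hEx
    rw [Finset.mem_filter]
    exact ⟨Fintype.mem_piFinset.2 fun j => Finset.mem_range.2 (ht j), hcon⟩
  beta_reduce at h1
  -- the model
  set C : Fin K → ℤ := fun j => D j + W * t j with hC
  have hV0 : ∀ s, 0 ≤ UU v S₀ t s := by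
    intro s
    unfold UU
    apply mul_nonneg
    · split_ifs <;> norm_num
    · exact prod_nonneg fun _ _ => hv0 _ _
  have hVT : UU v S₀ t T = 0 := by
    unfold UU
    rw [if_neg (by omega), zero_mul]
  have hmd := hMD W Q K T w C (UU v S₀ t) hQ1 hw hWw hVT hV0 hinj
  have hTV := UU_TV hv0 hv1 hvar S₀ t
  have hVS : ∑ s ∈ range T, UU v S₀ t s = S₀ := by
    have e1 : ∀ s, UU v S₀ t s = if s < S₀ then 1 else 0 := by
      intro s
      unfold UU
      split_ifs with hs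
      · rw [one_mul]
        exact prod_eq_one fun j _ => hv1' s hs j
      · rw [zero_mul]
    simp_rw [e1]
    rw [← sum_filter, sum_const, nsmul_eq_mul, mul_one]
    congr 1
    have : (range T).filter (fun s => s < S₀) = range S₀ := by
      ext s
      simp only [Finset.mem_filter, Finset.mem_range]
      omega
    rw [this, card_range]
  rw [hVS] at hmd
  have hδ0 : 0 ≤ δ := le_trans (by positivity) hδ
  have hexp : Real.exp (2 ^ K * ((K : ℝ) + 2) * (2 / w + ∑ i : Fin K, ∑ j : Fin K, Sg w (C i - C j))) - 1 ≤ 2 * δ := by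
    have h2 : ∑ i : Fin K, ∑ j : Fin K, Sg w (C i - C j) ≤ K ^ 2 * ε := by
      calc _ ≤ ∑ i : Fin K, ∑ j : Fin K, ε := sum_le_sum fun i _ => sum_le_sum fun j _ => hSg i j
        _ = K ^ 2 * ε := by
            rw [sum_const, sum_const, card_univ, Fintype.card_fin, nsmul_eq_mul, nsmul_eq_mul]
            ring
    have h3 : 2 ^ K * ((K : ℝ) + 2) * (2 / w + ∑ i : Fin K, ∑ j : Fin K, Sg w (C i - C j)) ≤ δ := by
      refine le_trans ?_ hδ
      apply mul_le_mul_of_nonneg_left _ (by positivity)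
      linarith
    have h4 := Real.exp_le_exp.2 h3
    have h5 := Real.abs_exp_sub_one_sub_id_le (x := δ) (by rw [abs_of_nonneg hδ0]; exact hδ1)
    have h6 := (abs_le.1 h5).2
    nlinarith only [h4, h6, hδ0, hδ1]
  have hg1 : ∑ s ∈ range S₀, ∏ j, (v j (s + t j) * GG W Q (D j + W * ((s + t j : ℕ) : ℤ))) = ∑ s ∈ range T, UU v S₀ t s * ∏ j, GG W Q (C j + W * s) := by
    have e1 : ∀ s : ℕ, UU v S₀ t s * ∏ j, GG W Q (C j + W * s) = if s < S₀ then ∏ j, (v j (s + t j) * GG W Q (D j + W * ((s + t j : ℕ) : ℤ))) else 0 := by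
      intro s
      unfold UU
      split_ifs
      · rw [one_mul, ← prod_mul_distrib]
        refine prod_congr rfl fun j _ => ?_
        have e : D j + (W : ℤ) * ((s + t j : ℕ) : ℤ) = C j + W * s := by rw [hC]; push_cast; ring
        rw [e]
      · rw [zero_mul, zero_mul]
    simp_rw [e1]
    rw [← sum_filter]
    apply sum_congr _ fun _ _ => rfl
    ext s
    simp only [Finset.mem_filter, Finset.mem_range]
    omega
  rw [← hg1] at hmd
  have hQ0 : 0 ≤ 2 * (Q : ℝ) ^ (2 * K) := by positivity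
  have h5 : 2 * (Q : ℝ) ^ (2 * K) * TV (UU v S₀ t) T ≤ 2 * (Q : ℝ) ^ (2 * K) * (3 * K + 2) := mul_le_mul_of_nonneg_left hTV hQ0
  have h6 : (Real.exp (2 ^ K * ((K : ℝ) + 2) * (2 / w + ∑ i : Fin K, ∑ j : Fin K, Sg w (C i - C j))) - 1) * S₀ ≤ 2 * δ * S₀ :=
    mul_le_mul_of_nonneg_right hexp (Nat.cast_nonneg _)
  rw [sum_sub_distrib] at h1
  set x₁ := ∑ s ∈ range S₀, ∏ j, F j (s + t j)
  set x₂ := ∑ s ∈ range S₀, ∏ j, (v j (s + t j) * GG W Q (D j + W * ((s + t j : ℕ) : ℤ)))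
  have h7 : |x₁ - S₀| ≤ |x₁ - x₂| + |x₂ - S₀| := by
    have : x₁ - S₀ = (x₁ - x₂) + (x₂ - S₀) := by ring
    rw [this]
    exact abs_add_le _ _
  linarith

theorem coreX2 (hTE : S_TE) (hMD : S_MDZ) (hEV : S_EV) (hREF : S_REF) {k : ℕ} (σ : Fin k → Bool) {η : ℝ} {D : ℕ} {l : ℝ} {y w W T Q P N₁ : ℕ} {ω c : ℕ → ℝ} {B₀ m₀ Et : ℝ}
    (h : SDat η D l y w W T Q P N₁ ω c B₀ m₀ Et) {E a a₁ τ ε δ : ℝ} {S₀ : ℕ} (hw : 2 ≤ w)
    (b : ℕ) (r : Fin k → ℕ) (_hb : b < W) (_hr : ∀ i, r i < W)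
    (hgood : ∀ x : ℕ, x = b ∨ (∃ i, x = r i) →
      (∫ α in (0 : ℝ)..1, (MA P ((P : ℝ) / T)).indicator (fun α => ‖hat (cx (fun s => FFc W c x s - gg W Q ω x s)) T α‖ ^ 2) α ≤ E) ∧
      ∀ α : ℝ, α ∉ MA P ((P : ℝ) / T) → ‖hat (cx (fun s => FFc W c x s - gg W Q ω x s)) T α‖ ≤ m₀)
    (hMB : ∀ (C : Fin (k + 1) → ℤ) (S : Finset (Fin (k + 1))), ∑ s ∈ range T, ∏ j ∈ S, GG W Q (C j + W * s) ^ 2 ≤ a₁)
    (ha : B₀ ^ (2 * (k + 1)) * a₁ ≤ a) (hτ : 0 < τ)
    (hS1 : S₀ ≤ T) (hε0 : 0 ≤ ε)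
    (hδ : 2 ^ (k + 1) * (((k + 1 : ℕ) : ℝ) + 2) * (2 / w + ((k + 1 : ℕ) : ℝ) ^ 2 * ε) ≤ δ) (hδ1 : δ ≤ 1) :
    ∃ Ex : Finset (Fin (k + 1) → ℕ), (Ex.card : ℝ) ≤ ((k + 1 : ℕ) : ℝ) * (2 * m₀ ^ 2 * a / τ ^ 2) * (T : ℝ) ^ (k + 1 - 1) ∧
      ∀ t : Fin (k + 1) → ℕ, (∀ j, t j < T) → t ∉ Ex → Function.Injective (fun j => DX σ W T b r j + W * t j) →
        (∀ i j, Sg w ((DX σ W T b r i + W * t i) - (DX σ W T b r j + W * t j)) ≤ ε) →
        (∀ s < S₀, ∀ j, vX σ W T ω b r j (s + t j) = 1) →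
        |∑ s ∈ range S₀, ∏ j, FX σ W T c b r j (s + t j) - S₀| ≤
          2 * δ * S₀ + 2 * (Q : ℝ) ^ (2 * (k + 1)) * (3 * ((k + 1 : ℕ) : ℝ) + 2) + ((k + 1 : ℕ) : ℝ) * (Real.sqrt (E * a) + τ) := by
  have hWpos : 0 < W := by rw [h.hW]; exact primorial_pos w
  have hB0 : 0 ≤ B₀ := by linarith [h.hB1]
  have hWw : ∀ p : ℕ, p.Prime → p ≤ w → p ∣ W := fun p hp hpw => by rw [h.hW]; exact hp.dvd_primorial_iff.2 hpw
  have hvar0 : ∀ x n : ℕ, ∑ s ∈ range n, |(fun s => ω (x + W * s)) (s + 1) - (fun s => ω (x + W * s)) s| ≤ 2 := fun x n => h.hω.var x W n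
  have hFz0 : ∀ x s : ℕ, T ≤ s → FFc W c x s = 0 := by
    intro x s hs
    have h1 : W * T ≤ W * s := Nat.mul_le_mul_left W hs
    have : c (x + W * s) = 0 := h.hcN _ (by omega)
    unfold FFc; rw [this]; simp
  have hvz0 : ∀ x s : ℕ, T ≤ s → ω (x + W * s) = 0 := by
    intro x s hs
    have h1 : W * T ≤ W * s := Nat.mul_le_mul_left W hs
    exact h.hω.zero_ge _ (by omega)
  have hvr0 : ∀ x t : ℕ, ∑ s ∈ range T, |ω (x + W * (s + 1 + t)) - ω (x + W * (s + t))| ≤ 3 := by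
    intro x t
    have h1 := h.hω.var (x + W * t) W T
    have e : ∀ s, |ω (x + W * (s + 1 + t)) - ω (x + W * (s + t))| = |ω (x + W * t + W * (s + 1)) - ω (x + W * t + W * s)| := by
      intro s
      congr 3 <;> ring
    simp_rw [e]
    linarith
  apply coreG2 hTE hMD (MA_meas P ((P : ℝ) / T)) hw h.hQ1 hWw h.hB1 h.hm0 (FX σ W T c b r) (vX σ W T ω b r) (DX σ W T b r)
    (a₁ := a₁) (E := E)
  · exact FX_nonneg σ h.hc0 b r
  · exact FX_le σ hWpos hB0 h.hc0 h.hcB b r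
  · intro j s hs
    refine Fin.cases ?_ (fun i => ?_) j
    · exact hFz0 b s hs
    · cases hσ : σ i
      · rw [FX_false hσ]; exact hFz0 _ s hs
      · rw [FX_true hσ]; exact rf_ge hs
  · intro j s
    refine Fin.cases ?_ (fun i => ?_) j
    · exact h.hω.nonneg _
    · cases hσ : σ i
      · rw [vX_false hσ]; exact h.hω.nonneg _
      · rw [vX_true hσ]; exact rf_nonneg (fun _ => h.hω.nonneg _) _
  · intro j s
    refine Fin.cases ?_ (fun i => ?_) j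
    · exact h.hω.le_one _
    · cases hσ : σ i
      · rw [vX_false hσ]; exact h.hω.le_one _
      · rw [vX_true hσ]; exact rf_le zero_le_one (fun _ => h.hω.le_one _) _
  · intro j s hs
    refine Fin.cases ?_ (fun i => ?_) j
    · exact hvz0 b s hs
    · cases hσ : σ i
      · rw [vX_false hσ]; exact hvz0 _ s hs
      · rw [vX_true hσ]; exact rf_ge hs
  · intro j t
    refine Fin.cases ?_ (fun i => ?_) j
    · exact hvr0 b t
    · cases hσ : σ i
      · rw [vX_false hσ]; exact hvr0 _ t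
      · rw [vX_true hσ]
        exact rf_var (u := fun s => ω (r i + W * s)) (fun _ => h.hω.nonneg _) (fun _ => h.hω.le_one _) (hvar0 (r i)) t
  · intro j
    refine Fin.cases ?_ (fun i => ?_) j
    · rw [FX_zero, vX_zero, DX_zero, diffn]
      exact (hgood b (Or.inl rfl)).1
    · cases hσ : σ i
      · rw [FX_false hσ, vX_false hσ, DX_false hσ, diffn]
        exact (hgood (r i) (Or.inr ⟨i, rfl⟩)).1
      · rw [FX_true hσ, vX_true hσ, DX_true hσ, diffr hEV, (hREF T P ((P : ℝ) / T) _).1]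
        exact (hgood (r i) (Or.inr ⟨i, rfl⟩)).1
  · intro j
    refine Fin.cases ?_ (fun i => ?_) j
    · rw [FX_zero, vX_zero, DX_zero, diffn]
      exact (hgood b (Or.inl rfl)).2
    · cases hσ : σ i
      · rw [FX_false hσ, vX_false hσ, DX_false hσ, diffn]
        exact (hgood (r i) (Or.inr ⟨i, rfl⟩)).2
      · rw [FX_true hσ, vX_true hσ, DX_true hσ, diffr hEV]
        exact (hREF T P ((P : ℝ) / T) _).2 m₀ (hgood (r i) (Or.inr ⟨i, rfl⟩)).2
  · exact hMB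
  · exact ha
  · exact hτ
  · exact hS1
  · exact hε0
  · exact hδ
  · exact hδ1

end Pool.Agent.J4H81.GB
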