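import Pool.Agent.J4H18.GB.Bdx
import Pool.Agent.J4H32.MV.X2

/-!
# Project GY: few mixed systems have differences with many prime factors, the ranges of project GY (helper81)
-/

set_option autoImplicit false

namespace Pool.Agent.J4H81.GB

open Finset
open Pool.Agent.J4H32.MV

theorem rgX_sub (s : Bool) (X : ℕ) : rgX s X ⊆ Icc 1 (4 * X) := by
  intro y hy
  rw [Finset.mem_Icc]
  cases s
  · have := rgX_false rfl hy
    omega
  · have := rgX_true rfl hy
    omega

open Classical in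
/-- (BDY) -/
theorem BDY (hRK : S_RK) (k w X : ℕ) (σ : Fin k → Bool) (ε : ℝ) (hw : 1 ≤ w) (hX : 1 ≤ X) :
    (((Fintype.piFinset (fun i : Fin k => rgX (σ i) X)).filter (fun x => ∃ i j : Fin (k + 1), i ≠ j ∧
      (es σ x i = es σ x j ∨ ε < Sg w (es σ x i - es σ x j)))).card : ℝ) ≤
      ((k : ℝ) + 1) ^ 2 * ((4 * (X : ℝ)) ^ k / (4 * X) + 16 * (4 * (X : ℝ)) ^ k * Real.exp (-(ε * w))) := by
  have h := Pool.Agent.J4H18.GB.t_BDX hRK k w (4 * X) σ ε hw (by omega)
  push_cast at h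
  refine le_trans ?_ h
  have hsub : (Fintype.piFinset (fun i : Fin k => rgX (σ i) X)).filter (fun x => ∃ i j : Fin (k + 1), i ≠ j ∧
      (es σ x i = es σ x j ∨ ε < Sg w (es σ x i - es σ x j))) ⊆
      (Fintype.piFinset (fun _ : Fin k => Icc 1 (4 * X))).filter (fun x => ∃ i j : Fin (k + 1), i ≠ j ∧
      (es σ x i = es σ x j ∨ ε < Sg w (es σ x i - es σ x j))) := by
    intro x hx
    rw [Finset.mem_filter, Fintype.mem_piFinset] at hx
    rw [Finset.mem_filter, Fintype.mem_piFinset]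
    exact ⟨fun i => rgX_sub _ _ (hx.1 i), hx.2⟩
  have h2 := card_le_card hsub
  refine le_trans ((Nat.cast_le (α := ℝ)).2 h2) (le_of_eq ?_)
  congr!

end Pool.Agent.J4H81.GB
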