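import Pool.Agent.J4H68.MV.Nb
import Pool.Agent.J4H81.GB.Stm2

/-!
# Project GY: the number of good classes for mixed systems (helper81)
-/

set_option autoImplicit false

namespace Pool.Agent.J4H81.GB

open Finset
open Pool.Agent.J4H32.MV

theorem adX_shift {k : ℕ} {σ : Fin k → Bool} {x : Fin k → ℕ} (hA : AdX σ x) (M c : ℕ) (a : Fin (k + 1) → ℕ)
    (h : ∀ j, (a j : ℤ) = es σ x j + (M : ℤ) * c) (p : ℕ) (hp : p.Prime) : ∃ r : ℕ, ∀ j, ¬ p ∣ r + a j := by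
  obtain ⟨r, hr⟩ := hA p hp
  refine ⟨r + (p - 1) * (M * c), fun j hd => hr j ?_⟩
  have h1 : (p : ℤ) ∣ ((r + (p - 1) * (M * c) + a j : ℕ) : ℤ) := by exact_mod_cast hd
  have h2 : ((r + (p - 1) * (M * c) + a j : ℕ) : ℤ) = ((r : ℤ) + es σ x j) + (p : ℤ) * (M * c) := by
    push_cast [Nat.cast_sub hp.one_le, h j]
    ring
  rw [h2] at h1
  exact (dvd_add_left (dvd_mul_right _ _)).1 h1

/-- (NVX) the lower bound for the number of good classes, mixed systems -/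
theorem NVX (k w c : ℕ) (σ : Fin k → Bool) (x : Fin k → ℕ) (a : Fin (k + 1) → ℕ) (hw : 1 ≤ w) (hA : AdX σ x)
    (h : ∀ j, (a j : ℤ) = es σ x j + (primorial w : ℤ) * c) :
    (primorial w : ℝ) ≤ ((2 * ((k + 1 : ℕ) : ℝ)) ^ (2 * (k + 1)) * (w : ℝ) ^ (2 * (k + 1))) *
      (((range (primorial w)).filter (fun b => ∀ j, (b + a j).Coprime (primorial w))).card : ℝ) :=
  Pool.Agent.J4H68.MV.t_NB (k + 1) w a (by omega) hw (adX_shift hA (primorial w) c a h)

end Pool.Agent.J4H81.GB
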