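import Pool.Agent.J4H81.GB.Cls
import Pool.Agent.J4H81.GB.Stm2

/-!
# Project GX: the functions of the forms `p`, `N_i - p`, `p + m_j` in good classes
-/

set_option autoImplicit false

namespace Pool.Agent.J4H81.GB

open Finset MeasureTheory Filter
open Pool.Agent.J4H81.PT Pool.Agent.J4H32.MV

/-- the functions of the forms -/
noncomputable def FX {k : ℕ} (σ : Fin k → Bool) (W T : ℕ) (c : ℕ → ℝ) (b : ℕ) (r : Fin k → ℕ) : Fin (k + 1) → ℕ → ℝ :=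
  Fin.cons (FFc W c b) (fun i => if σ i then rf T (FFc W c (r i)) else FFc W c (r i))

noncomputable def vX {k : ℕ} (σ : Fin k → Bool) (W T : ℕ) (ω : ℕ → ℝ) (b : ℕ) (r : Fin k → ℕ) : Fin (k + 1) → ℕ → ℝ :=
  Fin.cons (fun s => ω (b + W * s)) (fun i => if σ i then rf T (fun s => ω (r i + W * s)) else fun s => ω (r i + W * s))

def DX {k : ℕ} (σ : Fin k → Bool) (W T b : ℕ) (r : Fin k → ℕ) : Fin (k + 1) → ℤ :=
  Fin.cons (b : ℤ) (fun i => if σ i then -(r i : ℤ) - W * ((T : ℤ) - 1) else (r i : ℤ))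

theorem FX_zero {k : ℕ} (σ : Fin k → Bool) (W T : ℕ) (c : ℕ → ℝ) (b : ℕ) (r : Fin k → ℕ) : FX σ W T c b r 0 = FFc W c b := rfl

theorem FX_true {k : ℕ} {σ : Fin k → Bool} {i : Fin k} (h : σ i = true) (W T : ℕ) (c : ℕ → ℝ) (b : ℕ) (r : Fin k → ℕ) :
    FX σ W T c b r i.succ = rf T (FFc W c (r i)) := by
  unfold FX; simp [h]

theorem FX_false {k : ℕ} {σ : Fin k → Bool} {i : Fin k} (h : σ i = false) (W T : ℕ) (c : ℕ → ℝ) (b : ℕ) (r : Fin k → ℕ) :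
    FX σ W T c b r i.succ = FFc W c (r i) := by
  unfold FX; simp [h]

theorem vX_zero {k : ℕ} (σ : Fin k → Bool) (W T : ℕ) (ω : ℕ → ℝ) (b : ℕ) (r : Fin k → ℕ) : vX σ W T ω b r 0 = fun s => ω (b + W * s) := rfl

theorem vX_true {k : ℕ} {σ : Fin k → Bool} {i : Fin k} (h : σ i = true) (W T : ℕ) (ω : ℕ → ℝ) (b : ℕ) (r : Fin k → ℕ) :
    vX σ W T ω b r i.succ = rf T (fun s => ω (r i + W * s)) := by
  unfold vX; simp [h]

theorem vX_false {k : ℕ} {σ : Fin k → Bool} {i : Fin k} (h : σ i = false) (W T : ℕ) (ω : ℕ → ℝ) (b : ℕ) (r : Fin k → ℕ) :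
    vX σ W T ω b r i.succ = fun s => ω (r i + W * s) := by
  unfold vX; simp [h]

theorem DX_zero {k : ℕ} (σ : Fin k → Bool) (W T b : ℕ) (r : Fin k → ℕ) : DX σ W T b r 0 = (b : ℤ) := rfl

theorem DX_true {k : ℕ} {σ : Fin k → Bool} {i : Fin k} (h : σ i = true) (W T b : ℕ) (r : Fin k → ℕ) :
    DX σ W T b r i.succ = -(r i : ℤ) - W * ((T : ℤ) - 1) := by
  unfold DX; simp [h]

theorem DX_false {k : ℕ} {σ : Fin k → Bool} {i : Fin k} (h : σ i = false) (W T b : ℕ) (r : Fin k → ℕ) :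
    DX σ W T b r i.succ = (r i : ℤ) := by
  unfold DX; simp [h]

theorem diffn (W Q : ℕ) (c ω : ℕ → ℝ) (b : ℕ) :
    (fun s : ℕ => FFc W c b s - (fun s => ω (b + W * s)) s * GG W Q ((b : ℤ) + W * s)) = fun s => FFc W c b s - gg W Q ω b s := by
  funext s
  unfold gg
  push_cast
  rfl

theorem diffr (hEV : S_EV) (W T Q : ℕ) (c ω : ℕ → ℝ) (x : ℕ) :
    (fun s : ℕ => rf T (FFc W c x) s - rf T (fun s => ω (x + W * s)) s * GG W Q (-(x : ℤ) - W * ((T : ℤ) - 1) + W * s)) =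
      rf T (fun s => FFc W c x s - gg W Q ω x s) := by
  funext s
  unfold gg
  unfold rf
  split_ifs with hs
  · congr 2
    have e : -(x : ℤ) - W * ((T : ℤ) - 1) + W * s = -((x + W * (T - 1 - s) : ℕ) : ℤ) := by
      have : ((T - 1 - s : ℕ) : ℤ) = (T : ℤ) - 1 - s := by omega
      push_cast [this]
      ring
    rw [e, hEV]
  · simp

theorem FX_nonneg {k : ℕ} (σ : Fin k → Bool) {W T : ℕ} {c : ℕ → ℝ} (hc0 : ∀ n, 0 ≤ c n) (b : ℕ) (r : Fin k → ℕ) (j : Fin (k + 1)) (s : ℕ) :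
    0 ≤ FX σ W T c b r j s := by
  refine Fin.cases ?_ (fun i => ?_) j
  · exact FFc_nonneg hc0 _ _
  · cases h : σ i
    · rw [FX_false h]; exact FFc_nonneg hc0 _ _
    · rw [FX_true h]; exact rf_nonneg (FFc_nonneg hc0 _) _

theorem FX_le {k : ℕ} (σ : Fin k → Bool) {W T : ℕ} (hW : 0 < W) {c : ℕ → ℝ} {B₀ : ℝ} (hB0 : 0 ≤ B₀) (hc0 : ∀ n, 0 ≤ c n) (hcB : ∀ n, c n ≤ B₀)
    (b : ℕ) (r : Fin k → ℕ) (j : Fin (k + 1)) (s : ℕ) : FX σ W T c b r j s ≤ B₀ := by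
  refine Fin.cases ?_ (fun i => ?_) j
  · exact FFc_le hW hc0 hcB _ _
  · cases h : σ i
    · rw [FX_false h]; exact FFc_le hW hc0 hcB _ _
    · rw [FX_true h]; exact rf_le hB0 (FFc_le hW hc0 hcB _) _

theorem coreX (hTE : S_TE) (hMD : S_MDZ) (hEV : S_EV) (hREF : S_REF) {k : ℕ} (σ : Fin k → Bool) {η : ℝ} {D : ℕ} {l : ℝ} {y w W T Q P N₁ : ℕ} {ω c : ℕ → ℝ} {B₀ m₀ Et : ℝ}
    (h : SDat η D l y w W T Q P N₁ ω c B₀ m₀ Et) {E a a₁ τ ε : ℝ} {S₀ : ℕ} (hw : 2 ≤ w)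
    (b : ℕ) (r : Fin k → ℕ) (hb : b < W) (hr : ∀ i, r i < W)
    (hgood : ∀ x : ℕ, x = b ∨ (∃ i, x = r i) →
      (∫ α in (0 : ℝ)..1, (MA P ((P : ℝ) / T)).indicator (fun α => ‖hat (cx (fun s => FFc W c x s - gg W Q ω x s)) T α‖ ^ 2) α ≤ E) ∧
      ∀ α : ℝ, α ∉ MA P ((P : ℝ) / T) → ‖hat (cx (fun s => FFc W c x s - gg W Q ω x s)) T α‖ ≤ m₀)
    (hMB : ∀ (C : Fin (k + 1) → ℤ) (S : Finset (Fin (k + 1))), ∑ s ∈ range T, ∏ j ∈ S, GG W Q (C j + W * s) ^ 2 ≤ a₁)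
    (ha : B₀ ^ (2 * (k + 1)) * a₁ ≤ a) (hτ : 0 < τ)
    (hS1 : S₀ ≤ T) (hS2 : (T : ℝ) / 16 ≤ S₀) (hKη : ((k + 1 : ℕ) : ℝ) * η ≤ 1 / 64)
    (hsm : ((k + 1 : ℕ) : ℝ) * (Real.sqrt (E * a) + τ) ≤ T / 200)
    (hδ : 2 ^ (k + 1) * (((k + 1 : ℕ) : ℝ) + 2) * (2 / w + ((k + 1 : ℕ) : ℝ) ^ 2 * ε) ≤ 1 / 3)
    (hQT : 2 * (Q : ℝ) ^ (2 * (k + 1)) * (3 * ((k + 1 : ℕ) : ℝ) + 2) ≤ T / 200) :
    ∃ Ex : Finset (Fin (k + 1) → ℕ), (Ex.card : ℝ) ≤ ((k + 1 : ℕ) : ℝ) * (2 * m₀ ^ 2 * a / τ ^ 2) * (T : ℝ) ^ (k + 1 - 1) ∧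
      ∀ t : Fin (k + 1) → ℕ, (∀ j, t j < T) → (∀ j, S₀ + t j ≤ T) → t ∉ Ex → Function.Injective (fun j => DX σ W T b r j + W * t j) →
        (∀ i j, Sg w ((DX σ W T b r i + W * t i) - (DX σ W T b r j + W * t j)) ≤ ε) →
        (T : ℝ) / 100 ≤ ∑ s ∈ range S₀, ∏ j, FX σ W T c b r j (s + t j) := by
  have hWpos : 0 < W := by rw [h.hW]; exact primorial_pos w
  have hB0 : 0 ≤ B₀ := by linarith [h.hB1]
  have hWw : ∀ p : ℕ, p.Prime → p ≤ w → p ∣ W := fun p hp hpw => by rw [h.hW]; exact hp.dvd_primorial_iff.2 hpw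
  have hvar0 : ∀ x n : ℕ, ∑ s ∈ range n, |(fun s => ω (x + W * s)) (s + 1) - (fun s => ω (x + W * s)) s| ≤ 2 := fun x n => h.hω.var x W n
  have hFz0 : ∀ x s : ℕ, T ≤ s → FFc W c x s = 0 := by
    intro x s hs
    have h1 : W * T ≤ W * s := Nat.mul_le_mul_left W hs
    have : c (x + W * s) = 0 := h.hcN _ (by omega)
    unfold FFc; rw [this]; simp
  have hvz0 : ∀ x s : ℕ, T ≤ s → ω (x + W * s) = 0 := by
    intro x s hs
    have h1 : W * T ≤ W * s := Nat.mul_le_mul_left W hs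
    exact h.hω.zero_ge _ (by omega)
  have hvr0 : ∀ x t : ℕ, ∑ s ∈ range T, |ω (x + W * (s + 1 + t)) - ω (x + W * (s + t))| ≤ 3 := by
    intro x t
    have h1 := h.hω.var (x + W * t) W T
    have e : ∀ s, |ω (x + W * (s + 1 + t)) - ω (x + W * (s + t))| = |ω (x + W * t + W * (s + 1)) - ω (x + W * t + W * s)| := by
      intro s
      congr 3 <;> ring
    simp_rw [e]
    linarith
  apply coreG (η := η) hTE hMD (MA_meas P ((P : ℝ) / T)) hw h.hQ1 hWw h.hB1 h.hm0 (FX σ W T c b r) (vX σ W T ω b r) (DX σ W T b r)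
    (a₁ := a₁) (E := E)
  · exact FX_nonneg σ h.hc0 b r
  · exact FX_le σ hWpos hB0 h.hc0 h.hcB b r
  · intro j s hs
    refine Fin.cases ?_ (fun i => ?_) j
    · exact hFz0 b s hs
    · cases hσ : σ i
      · rw [FX_false hσ]; exact hFz0 _ s hs
      · rw [FX_true hσ]; exact rf_ge hs
  · intro j s
    refine Fin.cases ?_ (fun i => ?_) j
    · exact h.hω.nonneg _
    · cases hσ : σ i
      · rw [vX_false hσ]; exact h.hω.nonneg _
      · rw [vX_true hσ]; exact rf_nonneg (fun _ => h.hω.nonneg _) _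
  · intro j s
    refine Fin.cases ?_ (fun i => ?_) j
    · exact h.hω.le_one _
    · cases hσ : σ i
      · rw [vX_false hσ]; exact h.hω.le_one _
      · rw [vX_true hσ]; exact rf_le zero_le_one (fun _ => h.hω.le_one _) _
  · intro j s hs
    refine Fin.cases ?_ (fun i => ?_) j
    · exact hvz0 b s hs
    · cases hσ : σ i
      · rw [vX_false hσ]; exact hvz0 _ s hs
      · rw [vX_true hσ]; exact rf_ge hs
  · intro j t
    refine Fin.cases ?_ (fun i => ?_) j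
    · exact hvr0 b t
    · cases hσ : σ i
      · rw [vX_false hσ]; exact hvr0 _ t
      · rw [vX_true hσ]
        exact rf_var (u := fun s => ω (r i + W * s)) (fun _ => h.hω.nonneg _) (fun _ => h.hω.le_one _) (hvar0 (r i)) t
  · intro j
    refine Fin.cases ?_ (fun i => ?_) j
    · exact h.hmass b hb
    · cases hσ : σ i
      · rw [vX_false hσ]; exact h.hmass (r i) (hr i)
      · rw [vX_true hσ, rf_sum]
        exact h.hmass (r i) (hr i)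
  · intro j
    refine Fin.cases ?_ (fun i => ?_) j
    · rw [FX_zero, vX_zero, DX_zero, diffn]
      exact (hgood b (Or.inl rfl)).1
    · cases hσ : σ i
      · rw [FX_false hσ, vX_false hσ, DX_false hσ, diffn]
        exact (hgood (r i) (Or.inr ⟨i, rfl⟩)).1
      · rw [FX_true hσ, vX_true hσ, DX_true hσ, diffr hEV, (hREF T P ((P : ℝ) / T) _).1]
        exact (hgood (r i) (Or.inr ⟨i, rfl⟩)).1
  · intro j
    refine Fin.cases ?_ (fun i => ?_) j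
    · rw [FX_zero, vX_zero, DX_zero, diffn]
      exact (hgood b (Or.inl rfl)).2
    · cases hσ : σ i
      · rw [FX_false hσ, vX_false hσ, DX_false hσ, diffn]
        exact (hgood (r i) (Or.inr ⟨i, rfl⟩)).2
      · rw [FX_true hσ, vX_true hσ, DX_true hσ, diffr hEV]
        exact (hREF T P ((P : ℝ) / T) _).2 m₀ (hgood (r i) (Or.inr ⟨i, rfl⟩)).2
  · exact hMB
  · exact ha
  · exact hτ
  · exact hS1
  · exact hS2
  · exact hKη
  · exact hsm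
  · exact hδ
  · exact hQT

end Pool.Agent.J4H81.GB
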