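import Pool.Agent.J4H81.GB.Cls
import Pool.Agent.J4H32.MV.Fb

/-!
# Project GB: exceptional vectors at one scale (adaptation of `Pool.Agent.J4H32.MV.fin1` of helper32)
-/

set_option autoImplicit false

namespace Pool.Agent.J4H81.GB

open Finset MeasureTheory Filter
open Pool.Agent.J4H81.PT Pool.Agent.J4H32.MV

/-- the number of the primes `n ≤ X` such that all the `N_i - n` are primes -/
noncomputable def Gn {k : ℕ} (N : Fin k → ℕ) (X : ℕ) : ℕ := ((Icc 1 X).filter (fun n => n.Prime ∧ ∀ i, (N i - n).Prime)).card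

theorem rf_ne {T : ℕ} {H : ℕ → ℝ} {s : ℕ} (h : rf T H s ≠ 0) : s < T ∧ H (T - 1 - s) ≠ 0 := by
  unfold rf at h
  split_ifs at h with h1
  · exact ⟨h1, h⟩
  · exact absurd rfl h

theorem count_lowerG {k W T S₀ X b t : ℕ} {c : ℕ → ℝ} {B₀ : ℝ} (hW : 0 < W) (hc0 : ∀ n, 0 ≤ c n) (hcB : ∀ n, c n ≤ B₀)
    (hcp : ∀ n, c n ≠ 0 → n.Prime) (hB1 : 1 ≤ B₀) (N r : Fin k → ℕ) (τ : Fin (k + 1) → ℕ) (h0 : τ 0 = t)
    (hrt : ∀ i s, s + τ (Fin.succ i) < T → r i + W * (T - 1 - (s + τ (Fin.succ i))) + (b + W * (s + t)) = N i)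
    (hX : ∀ s < S₀, b + W * (s + t) ≤ X) :
    ∑ s ∈ range S₀, ∏ j, FF W T c b r j (s + τ j) ≤ B₀ ^ (k + 1) * Gn N X := by
  classical
  have hB0 : 0 ≤ B₀ := by linarith
  have hF0 : ∀ (j : Fin (k + 1)) s, 0 ≤ FF W T c b r j s := by
    intro j s
    refine Fin.cases ?_ (fun i => ?_) j
    · exact FFc_nonneg hc0 _ _
    · exact rf_nonneg (FFc_nonneg hc0 _) _
  have hFB : ∀ (j : Fin (k + 1)) s, FF W T c b r j s ≤ B₀ := by
    intro j s
    refine Fin.cases ?_ (fun i => ?_) j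
    · exact FFc_le hW hc0 hcB _ _
    · exact rf_le hB0 (FFc_le hW hc0 hcB _) _
  set G : Finset ℕ := (range S₀).filter (fun s => ∀ j, FF W T c b r j (s + τ j) ≠ 0) with hG
  have h1 : ∑ s ∈ range S₀, ∏ j, FF W T c b r j (s + τ j) = ∑ s ∈ G, ∏ j, FF W T c b r j (s + τ j) := by
    rw [hG, sum_filter]
    refine sum_congr rfl fun s _ => ?_
    split_ifs with h
    · rfl
    · push Not at h
      obtain ⟨j, hj⟩ := h
      exact prod_eq_zero (Finset.mem_univ j) hj
  rw [h1]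
  have h2 : ∑ s ∈ G, ∏ j, FF W T c b r j (s + τ j) ≤ ∑ s ∈ G, B₀ ^ (k + 1) := by
    apply sum_le_sum
    intro s _
    calc ∏ j, FF W T c b r j (s + τ j) ≤ ∏ j : Fin (k + 1), B₀ :=
          prod_le_prod (fun _ _ => hF0 _ _) fun _ _ => hFB _ _
      _ = B₀ ^ (k + 1) := by rw [prod_const, card_univ, Fintype.card_fin]
  refine h2.trans ?_
  rw [sum_const, nsmul_eq_mul, mul_comm]
  apply mul_le_mul_of_nonneg_left _ (by positivity)
  have h3 : G.card ≤ Gn N X := by
    unfold Gn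
    apply card_le_card_of_injOn (fun s => b + W * (s + t))
    · intro s hs
      rw [Finset.mem_coe, hG, Finset.mem_filter, Finset.mem_range] at hs
      have hpr : (b + W * (s + t)).Prime := by
        have h4 : FFc W c b (s + τ 0) ≠ 0 := hs.2 0
        rw [h0] at h4
        exact FFc_prime hcp h4
      have hpr2 : ∀ i, (N i - (b + W * (s + t))).Prime := by
        intro i
        have h4 : rf T (FFc W c (r i)) (s + τ (Fin.succ i)) ≠ 0 := hs.2 (Fin.succ i)
        obtain ⟨h5, h6⟩ := rf_ne h4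
        have h7 := FFc_prime hcp h6
        have h8 := hrt i s h5
        have e : N i - (b + W * (s + t)) = r i + W * (T - 1 - (s + τ (Fin.succ i))) := by omega
        rw [e]
        exact h7
      rw [Finset.mem_coe, Finset.mem_filter, Finset.mem_Icc]
      exact ⟨⟨hpr.one_lt.le, hX s hs.1⟩, hpr, hpr2⟩
    · intro s _ s' _ h
      simp only at h
      have h4 : W * (s + t) = W * (s' + t) := by omega
      have h5 := Nat.eq_of_mul_eq_mul_left hW h4
      omega
  exact_mod_cast h3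

/-- the arithmetic of one form `N - n` -/
theorem arith {W T q X b N u r : ℕ} (hW : 0 < W) (hb : b < W) (hr : r < W) (hN : N = b + r + W * u) (hX1 : X < N) (hX2 : N ≤ 2 * X)
    (h3X : 3 * X ≤ W * T) (hWq : W * q ≤ X) (hX0 : 1 ≤ X) :
    u < T ∧ q ≤ u + 1 ∧ (b + (W * T - 1 - N)) / W = T - 1 - u ∧ (W * T - 1 - N) % W = W - 1 - N % W := by
  have hu : u < T := by
    have h1 : W * u < W * T := by omega
    exact Nat.lt_of_mul_lt_mul_left h1
  have hq : q ≤ u + 1 := by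
    have h1 : W * q < W * (u + 2) := by rw [Nat.mul_add]; omega
    have := Nat.lt_of_mul_lt_mul_left h1
    omega
  have hTu : W * (T - 1 - u) = W * T - W - W * u := by
    rw [Nat.mul_sub, Nat.mul_sub, Nat.mul_one]
  have hWT : W * (u + 1) ≤ W * T := Nat.mul_le_mul_left W hu
  rw [Nat.mul_add, Nat.mul_one] at hWT
  refine ⟨hu, hq, ?_, ?_⟩
  · apply Nat.div_eq_of_lt_le
    · rw [Nat.mul_comm, hTu]; omega
    · have e : (T - 1 - u + 1) * W = W * (T - 1 - u) + W := by ring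
      rw [e, hTu]; omega
  · have h1 := Nat.div_add_mod N W
    have h2 := Nat.mod_lt N hW
    set v := N / W with hv
    have hv' : v < T := by
      have h1 : W * v < W * T := by omega
      exact Nat.lt_of_mul_lt_mul_left h1
    have hTv : W * (T - 1 - v) = W * T - W - W * v := by
      rw [Nat.mul_sub, Nat.mul_sub, Nat.mul_one]
    have hWT' : W * (v + 1) ≤ W * T := Nat.mul_le_mul_left W hv'
    rw [Nat.mul_add, Nat.mul_one] at hWT'
    have e : W * T - 1 - N = (W - 1 - N % W) + W * (T - 1 - v) := by omega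
    rw [e, Nat.add_mul_mod_self_left, Nat.mod_eq_of_lt (by omega)]

open Classical in
theorem fin1G (hTE : S_TE) (hMD : S_MDZ) (hEV : S_EV) (hREF : S_REF) (hRC : S_RC) (hRCG : S_RCG) (hMB : S_MBZ) (hCN : S_CN) {k D c₁ : ℕ} {η l ε C : ℝ} {X : ℕ}
    (hKη : ((k + 1 : ℕ) : ℝ) * η ≤ 1 / 64)
    (hD : D = 2 * (k + 1) + c₁ + 5)
    (hPS : ∀ Q : ℕ, (Q : ℝ) ≤ Real.exp l → ∑ p ∈ (range (Q + 1)).filter Nat.Prime, 1 / (p : ℝ) ≤ C * Real.log l)
    (hc₁ : 4 ^ (k + 1) * (2 * ((k + 1 : ℕ) : ℝ) + 2) * C ≤ c₁)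
    (hl4 : 10 ^ 4 ≤ l) (hl2 : 4 * (((k + 1 : ℕ) : ℝ) * (2 * ((k + 1 : ℕ) : ℝ)) ^ (2 * (k + 1))) ≤ l) (hl3 : 1000 * ((k + 1 : ℕ) : ℝ) ≤ l)
    (hl5 : 24000 * (2 ^ (k + 1) * (((k + 1 : ℕ) : ℝ) + 2)) ≤ l) (hε0 : 0 ≤ ε) (hε : 2 ^ (k + 1) * (((k + 1 : ℕ) : ℝ) + 2) * (((k + 1 : ℕ) : ℝ) ^ 2 * ε) ≤ 1 / 6)
    (hl6 : 4 * ((k + 1 : ℕ) : ℝ) * l ^ (c₁ + 4) ≤ Real.exp (l / 250))
    (hX : Real.exp ((((k + 1 : ℕ) : ℝ) + 3) * l) ≤ X)
    (hSD : SD η D l (4 * X)) :
    ∃ w : ℕ, l / 2000 ≤ w ∧ (((Fintype.piFinset (fun _ : Fin k => Ioc X (2 * X))).filter (fun N => AdG N ∧ (Gn N X : ℝ) < X * Real.exp (-(l / 300)) ∧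
      ¬ ∃ i j : Fin (k + 1), i ≠ j ∧ (aa N i = aa N j ∨ ε < Sg w ((aa N i : ℤ) - aa N j)))).card : ℝ) ≤
        20 * 5 ^ k * (X : ℝ) ^ k * Real.exp (-(l / 200)) := by
  obtain ⟨w, W, T, Q, P, N₁, ω, c, B₀, m₀, Et, h⟩ := hSD
  set K : ℕ := k + 1 with hKdef
  have hK1 : (1 : ℝ) ≤ (K : ℝ) := by rw [hKdef]; push_cast; linarith [(Nat.cast_nonneg k : (0 : ℝ) ≤ k)]
  have hK0 : (0 : ℝ) < (K : ℝ) := by linarith
  have hl0 : 0 < l := by linarith
  have hl1 : 1 ≤ l := by linarith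
  have hWpos : 0 < W := by rw [h.hW]; exact primorial_pos w
  have : NeZero W := ⟨hWpos.ne'⟩
  have hW0 : (0 : ℝ) < W := by exact_mod_cast hWpos
  have hW1 : (1 : ℝ) ≤ W := by exact_mod_cast hWpos
  have hwr : 5 ≤ (w : ℝ) := by linarith [h.hw1]
  have hw2 : 2 ≤ w := by
    have : (2 : ℝ) ≤ w := by linarith
    exact_mod_cast this
  have hw0 : (0 : ℝ) < w := by linarith
  have hX0 : (0 : ℝ) < X := lt_of_lt_of_le (Real.exp_pos _) hX
  have he1 : 10 ^ 4 ≤ Real.exp l := by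
    have := Real.add_one_le_exp l
    linarith
  -- the ranges
  have hWX : W * 20 ≤ X := by
    have h1 : (W : ℝ) * 20 ≤ X := by
      calc (W : ℝ) * 20 ≤ Real.exp (l / 700) * Real.exp l := by
            apply mul_le_mul h.hWl (by linarith) (by norm_num) (Real.exp_pos _).le
        _ = Real.exp (l / 700 + l) := (Real.exp_add _ _).symm
        _ ≤ Real.exp ((K + 3) * l) := by
            apply Real.exp_le_exp.2
            nlinarith only [hK1, hl0]
        _ ≤ X := hX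
    exact_mod_cast h1
  obtain ⟨hq1, hq2, hWT, h3X, hq20, hWq⟩ := ranges hWpos h.hT hWX
  set q : ℕ := X / W with hq
  have hTpos : 1 ≤ T := by omega
  have hT0 : (0 : ℝ) < T := by exact_mod_cast hTpos
  have h3Xr : 3 * (X : ℝ) ≤ W * T := by exact_mod_cast h3X
  have hWTr : (W : ℝ) * T ≤ 4 * X + 1 := by exact_mod_cast hWT
  have hX1 : (1 : ℝ) ≤ X := by
    have : 0 < X := by exact_mod_cast hX0
    exact_mod_cast this
  have hT3 : 3 * (X : ℝ) * Real.exp (-(l / 700)) ≤ T := by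
    have h1 : 3 * (X : ℝ) ≤ Real.exp (l / 700) * T := h3Xr.trans (mul_le_mul_of_nonneg_right h.hWl hT0.le)
    calc 3 * (X : ℝ) * Real.exp (-(l / 700)) ≤ Real.exp (l / 700) * T * Real.exp (-(l / 700)) :=
          mul_le_mul_of_nonneg_right h1 (Real.exp_pos _).le
      _ = T * (Real.exp (l / 700) * Real.exp (-(l / 700))) := by ring
      _ = T := by rw [← Real.exp_add]; simp
  have hTexp : Real.exp ((K + 2) * l) ≤ T := by
    calc Real.exp ((K + 2) * l) ≤ Real.exp ((K + 3) * l + -(l / 700)) := Real.exp_le_exp.2 (by linarith)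
      _ = Real.exp ((K + 3) * l) * Real.exp (-(l / 700)) := Real.exp_add _ _
      _ ≤ X * Real.exp (-(l / 700)) := mul_le_mul_of_nonneg_right hX (Real.exp_pos _).le
      _ ≤ 3 * X * Real.exp (-(l / 700)) := by
          apply mul_le_mul_of_nonneg_right _ (Real.exp_pos _).le
          linarith
      _ ≤ T := hT3
  -- the moments
  have hB0 : 0 < B₀ := by linarith [h.hB1]
  have hB2K : 0 < B₀ ^ (2 * K) := by positivity
  have hQel : (Q : ℝ) ≤ Real.exp l := h.hQl.trans (Real.exp_le_exp.2 (by linarith))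
  have hlc1 : 1 ≤ l ^ c₁ := one_le_pow₀ hl1
  have hQpow : (Q : ℝ) ^ (4 * K) ≤ Real.exp ((K : ℝ) * l) := by
    calc (Q : ℝ) ^ (4 * K) ≤ Real.exp (l / 40) ^ (4 * K) := pow_le_pow_left₀ (Nat.cast_nonneg _) h.hQl _
      _ = Real.exp ((4 * K : ℕ) * (l / 40)) := by rw [← Real.exp_nat_mul]
      _ ≤ Real.exp ((K : ℝ) * l) := by
          apply Real.exp_le_exp.2
          push_cast
          nlinarith only [hK0, hl0]
  have hQpow2 : (Q : ℝ) ^ (2 * K) ≤ Real.exp ((K : ℝ) * l) := by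
    have hQ1 : (1 : ℝ) ≤ Q := by exact_mod_cast h.hQ1
    exact (pow_le_pow_right₀ hQ1 (by omega)).trans hQpow
  set a₁ : ℝ := 2 * l ^ c₁ * T with ha₁
  have hMB' : ∀ (C : Fin K → ℤ) (S : Finset (Fin K)), ∑ s ∈ range T, ∏ j ∈ S, GG W Q (C j + W * s) ^ 2 ≤ a₁ := by
    intro C' S
    refine (hMB K W Q T C' S h.hQ1 hTpos).trans ?_
    have h1 : Real.exp (4 ^ K * (2 * (K : ℝ) + 2) * ∑ p ∈ (range (Q + 1)).filter Nat.Prime, 1 / (p : ℝ)) ≤ l ^ c₁ := by
      have h2 := hPS Q hQel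
      have h3 : l ^ c₁ = Real.exp (c₁ * Real.log l) := by rw [Real.exp_nat_mul, Real.exp_log hl0]
      rw [h3]
      apply Real.exp_le_exp.2
      have hlog : 0 ≤ Real.log l := Real.log_nonneg hl1
      calc 4 ^ K * (2 * (K : ℝ) + 2) * ∑ p ∈ (range (Q + 1)).filter Nat.Prime, 1 / (p : ℝ) ≤ 4 ^ K * (2 * (K : ℝ) + 2) * (C * Real.log l) :=
            mul_le_mul_of_nonneg_left h2 (by positivity)
        _ = (4 ^ K * (2 * (K : ℝ) + 2) * C) * Real.log l := by ring
        _ ≤ c₁ * Real.log l := mul_le_mul_of_nonneg_right hc₁ hlog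
    have h4 : 4 * (Q : ℝ) ^ (4 * K) ≤ T := by
      calc 4 * (Q : ℝ) ^ (4 * K) ≤ Real.exp l * Real.exp ((K : ℝ) * l) := by
            apply mul_le_mul (by linarith) hQpow (by positivity) (Real.exp_pos _).le
        _ = Real.exp (l + K * l) := (Real.exp_add _ _).symm
        _ ≤ Real.exp ((K + 2) * l) := Real.exp_le_exp.2 (by linarith)
        _ ≤ T := hTexp
    have h5 : (T : ℝ) ≤ l ^ c₁ * T := le_mul_of_one_le_left hT0.le hlc1
    have h6 := mul_le_mul_of_nonneg_right h1 hT0.le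
    rw [ha₁]
    linarith
  set a : ℝ := B₀ ^ (2 * K) * a₁ with ha
  set E : ℝ := T / (B₀ ^ (2 * K) * l ^ (c₁ + 4)) with hE
  have hE0 : 0 < E := by positivity
  set τ : ℝ := T / l ^ 2 with hτ
  have hτ0 : 0 < τ := by positivity
  have hEa : E * a = 2 * (T / l ^ 2) ^ 2 := by
    rw [hE, ha, ha₁]
    field_simp
    ring
  have hsqrt : Real.sqrt (E * a) ≤ 2 * (T / l ^ 2) := by
    rw [hEa]
    apply Real.sqrt_le_iff.2
    refine ⟨by positivity, ?_⟩
    have : 0 ≤ ((T : ℝ) / l ^ 2) ^ 2 := sq_nonneg _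
    nlinarith only [this]
  have hsm : K * (Real.sqrt (E * a) + τ) ≤ T / 200 := by
    have h1 : (K : ℝ) * (Real.sqrt (E * a) + τ) ≤ K * (2 * (T / l ^ 2) + T / l ^ 2) := by
      apply mul_le_mul_of_nonneg_left _ hK0.le
      rw [hτ]
      linarith
    refine h1.trans ?_
    have e : (K : ℝ) * (2 * (T / l ^ 2) + T / l ^ 2) = (3 * K * T) / l ^ 2 := by ring
    rw [e, div_le_div_iff₀ (by positivity) (by norm_num)]
    have h2 : 600 * (K : ℝ) ≤ l ^ 2 := by nlinarith only [hl3, hl1, hK0]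
    calc 3 * K * T * 200 = (600 * (K : ℝ)) * T := by ring
      _ ≤ l ^ 2 * T := mul_le_mul_of_nonneg_right h2 hT0.le
      _ = T * l ^ 2 := by ring
  have hδ : 2 ^ K * ((K : ℝ) + 2) * (2 / w + K ^ 2 * ε) ≤ 1 / 3 := by
    have h1 : 2 ^ K * ((K : ℝ) + 2) * (2 / w) ≤ 1 / 6 := by
      have h2 : 12 * (2 ^ K * ((K : ℝ) + 2)) ≤ w := by linarith [h.hw1]
      rw [mul_div_assoc', div_le_div_iff₀ hw0 (by norm_num)]
      linarith
    rw [mul_add]
    linarith
  have hQT : 2 * (Q : ℝ) ^ (2 * K) * (3 * K + 2) ≤ T / 200 := by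
    rw [le_div_iff₀ (by norm_num)]
    have h1 : 2 * (3 * (K : ℝ) + 2) * 200 ≤ Real.exp l := by
      have h2 := Real.add_one_le_exp (l / 2)
      have h3 : Real.exp l = Real.exp (l / 2) * Real.exp (l / 2) := by rw [← Real.exp_add]; congr 1; ring
      rw [h3]
      nlinarith
    calc 2 * (Q : ℝ) ^ (2 * K) * (3 * K + 2) * 200 = (2 * (3 * (K : ℝ) + 2) * 200) * (Q : ℝ) ^ (2 * K) := by ring
      _ ≤ Real.exp l * Real.exp ((K : ℝ) * l) := mul_le_mul h1 hQpow2 (by positivity) (Real.exp_pos _).le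
      _ = Real.exp (l + K * l) := (Real.exp_add _ _).symm
      _ ≤ Real.exp ((K + 2) * l) := Real.exp_le_exp.2 (by linarith)
      _ ≤ T := hTexp
  -- the classes
  obtain ⟨B, hBE, hBgood⟩ := cls h hTpos hE0
  have hBD : (B.card : ℝ) * l ^ (2 * K + 1) ≤ W := by
    have hEt0 : 0 ≤ Et := le_trans (by positivity) hBE
    have h1 : (B.card : ℝ) * T ≤ Et * (B₀ ^ (2 * K) * l ^ (c₁ + 4)) := by
      rw [hE, mul_div_assoc', div_le_iff₀ (by positivity)] at hBE
      exact hBE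
    have h2 : B₀ ^ (2 * K) ≤ B₀ ^ D := pow_le_pow_right₀ h.hB1 (by omega)
    have h3 : (B.card : ℝ) * T * l ^ (2 * K + 1) ≤ W * T := by
      calc (B.card : ℝ) * T * l ^ (2 * K + 1) ≤ Et * (B₀ ^ (2 * K) * l ^ (c₁ + 4)) * l ^ (2 * K + 1) :=
            mul_le_mul_of_nonneg_right h1 (by positivity)
        _ = Et * (B₀ ^ (2 * K) * l ^ D) := by
            rw [hD]
            have : l ^ (2 * K + c₁ + 5) = l ^ (c₁ + 4) * l ^ (2 * K + 1) := by rw [← pow_add]; congr 1; omega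
            rw [this]
            ring
        _ ≤ Et * (B₀ ^ D * l ^ D) := by
            apply mul_le_mul_of_nonneg_left _ hEt0
            exact mul_le_mul_of_nonneg_right h2 (by positivity)
        _ ≤ ((W * T : ℕ) : ℝ) := h.hEt1
        _ = W * T := by push_cast; ring
    have h4 : (B.card : ℝ) * l ^ (2 * K + 1) * T ≤ W * T := by
      calc _ = (B.card : ℝ) * T * l ^ (2 * K + 1) := by ring
        _ ≤ _ := h3
    exact le_of_mul_le_mul_right h4 hT0
  have hRCB : 2 * ((k + 1 : ℕ) : ℝ) * B.card * ((2 * ((k + 1 : ℕ) : ℝ)) ^ (2 * (k + 1)) * (w : ℝ) ^ (2 * (k + 1))) < W := by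
    rw [← hKdef]
    have hwl : (w : ℝ) ^ (2 * K) ≤ l ^ (2 * K) := pow_le_pow_left₀ hw0.le h.hw2 _
    have h1 : 2 * ((K : ℝ) * (2 * (K : ℝ)) ^ (2 * K)) ≤ l / 2 := by linarith
    calc 2 * (K : ℝ) * B.card * ((2 * (K : ℝ)) ^ (2 * K) * (w : ℝ) ^ (2 * K)) =
          (B.card : ℝ) * (2 * ((K : ℝ) * (2 * (K : ℝ)) ^ (2 * K))) * (w : ℝ) ^ (2 * K) := by ring
      _ ≤ (B.card : ℝ) * (l / 2) * l ^ (2 * K) := by gcongr
      _ = (B.card : ℝ) * l ^ (2 * K + 1) / 2 := by rw [pow_succ]; ring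
      _ ≤ W / 2 := by linarith
      _ < W := by linarith
  have hkw : k + 1 ≤ w := by
    have h1 : ((k + 1 : ℕ) : ℝ) ≤ w := by
      have h2 : 24000 * (1 * (((k + 1 : ℕ) : ℝ) + 2)) ≤ l := by
        refine le_trans ?_ hl5
        have h3 : (1 : ℝ) ≤ 2 ^ (k + 1) := one_le_pow₀ (by norm_num)
        have h4 : (0 : ℝ) ≤ ((k + 1 : ℕ) : ℝ) + 2 := by positivity
        nlinarith
      have h5 := h.hw1
      have h6 : (0 : ℝ) ≤ ((k + 1 : ℕ) : ℝ) := by positivity
      linarith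
    exact_mod_cast h1
  have hRCx : ∀ ρ : Fin k → ℕ, ∃ b < W, ∀ N : Fin k → ℕ, AdG N → (fun i => N i % W) = ρ →
      (b.Coprime W ∧ (b : ZMod W) ∉ B) ∧ ∀ i, IsUnit ((N i : ZMod W) - (b : ZMod W)) ∧ ((N i : ZMod W) - (b : ZMod W)) ∉ B := by
    intro ρ
    have hWw := h.hW
    subst hWw
    exact hRCG hRC k w B hkw hw2 hRCB ρ
  choose b hbW hb using hRCx
  -- the classes of the forms in terms of the residues of `m = W T - 1 - N`
  set ν : (Fin k → ℕ) → (Fin k → ℕ) := fun ρ i => W - 1 - ρ i with hν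
  set bb : (Fin k → ℕ) → ℕ := fun ρ => b (ν ρ) with hbb
  set rr' : (Fin k → ℕ) → Fin k → ℕ := fun ρ i => (((ν ρ i : ℕ) : ZMod W) - (bb ρ : ZMod W)).val with hrr
  have hbbW : ∀ ρ, bb ρ < W := fun ρ => hbW _
  have hrrW : ∀ ρ i, rr' ρ i < W := fun ρ i => ZMod.val_lt _
  -- the exceptional tuples
  have hexr : ∀ ρ : Fin k → ℕ, ∃ Ex : Finset (Fin K → ℕ), (Ex.card : ℝ) ≤ K * (2 * m₀ ^ 2 * a / τ ^ 2) * (T : ℝ) ^ (K - 1) ∧
      ((∃ N₁ : Fin k → ℕ, AdG N₁ ∧ (fun i => N₁ i % W) = ν ρ) → ∀ t : Fin K → ℕ, (∀ j, t j < T) → (∀ j, q / 2 + t j ≤ T) → t ∉ Ex →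
        Function.Injective (fun j => DD W T (bb ρ) (rr' ρ) j + W * t j) →
        (∀ i j, Sg w ((DD W T (bb ρ) (rr' ρ) i + W * t i) - (DD W T (bb ρ) (rr' ρ) j + W * t j)) ≤ ε) →
        (T : ℝ) / 100 ≤ ∑ s ∈ range (q / 2), ∏ j, FF W T c (bb ρ) (rr' ρ) j (s + t j)) := by
    intro ρ
    by_cases hρ : ∃ N₁ : Fin k → ℕ, AdG N₁ ∧ (fun i => N₁ i % W) = ν ρ
    · obtain ⟨N₁, hN₁, hres⟩ := hρ
      have hgood := hb (ν ρ) N₁ hN₁ hres
      have hcast : ∀ i, (N₁ i : ZMod W) = ((ν ρ i : ℕ) : ZMod W) := by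
        intro i
        rw [← congrFun hres i, ZMod.natCast_mod]
      have hcls : ∀ x : ℕ, x = bb ρ ∨ (∃ i, x = rr' ρ i) → x < W ∧ x.Coprime W ∧ (x : ZMod W) ∉ B := by
        rintro x (rfl | ⟨i, rfl⟩)
        · exact ⟨hbbW ρ, hgood.1.1, hgood.1.2⟩
        · obtain ⟨g1, g2⟩ := hgood.2 i
          rw [hcast i] at g1 g2
          have e : ((rr' ρ i : ℕ) : ZMod W) = ((ν ρ i : ℕ) : ZMod W) - (bb ρ : ZMod W) := by
            rw [hrr]
            exact ZMod.natCast_zmod_val _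
          refine ⟨hrrW ρ i, ?_, ?_⟩
          · rw [← ZMod.isUnit_iff_coprime, e]
            exact g1
          · rw [e]
            exact g2
      obtain ⟨Ex, hEx1, hEx2⟩ := coreC hTE hMD hEV hREF h (E := E) (a := a) (a₁ := a₁) (τ := τ) (ε := ε) (S₀ := q / 2) hw2
        (bb ρ) (rr' ρ) (hbbW ρ) (hrrW ρ) (fun x hx => hBgood x (hcls x hx).1 (hcls x hx).2.1 (hcls x hx).2.2) hMB' le_rfl hτ0 (by omega) (by
          have h1 : (T : ℝ) ≤ 4 * q + 4 := by exact_mod_cast hq2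
          have h2 : (q : ℝ) ≤ 2 * ((q / 2 : ℕ) : ℝ) + 1 := by
            have : q ≤ 2 * (q / 2) + 1 := by omega
            exact_mod_cast this
          have h3 : (20 : ℝ) ≤ q := by exact_mod_cast hq20
          rw [div_le_iff₀ (by norm_num)]
          linarith) hKη hsm hδ hQT
      exact ⟨Ex, hEx1, fun _ => hEx2⟩
    · refine ⟨∅, ?_, fun h1 => absurd h1 hρ⟩
      rw [card_empty, Nat.cast_zero]
      have := h.hm0
      positivity
  choose Ex hEx1 hEx2 using hexr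
  refine ⟨w, h.hw1, ?_⟩
  set Z : Finset (Fin k → ℕ) := (Fintype.piFinset (fun _ : Fin k => Ioc X (2 * X))).filter (fun N => AdG N ∧ (Gn N X : ℝ) < X * Real.exp (-(l / 300)) ∧
      ¬ ∃ i j : Fin (k + 1), i ≠ j ∧ (aa N i = aa N j ∨ ε < Sg w ((aa N i : ℤ) - aa N j))) with hZ
  have hXpos : 1 ≤ X := by exact_mod_cast hX1
  set Zm : Finset (Fin k → ℕ) := Z.image (fun N i => W * T - 1 - N i) with hZm
  have hZmem : ∀ N ∈ Z, ∀ i, X < N i ∧ N i ≤ 2 * X := by
    intro N hN i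
    rw [hZ, Finset.mem_filter, Fintype.mem_piFinset] at hN
    exact Finset.mem_Ioc.1 (hN.1 i)
  have hZcard : Zm.card = Z.card := by
    rw [hZm]
    apply card_image_of_injOn
    intro N hN N' hN' he
    funext i
    have h1 := congrFun he i
    have h2 := hZmem N hN i
    have h3 := hZmem N' hN' i
    simp only at h1
    omega
  have hcn := hCN k W (q / 4) Zm bb Ex _ hWpos hbbW hEx1 (by
    intro m hm t ht
    rw [hZm, Finset.mem_image] at hm
    obtain ⟨N, hN, rfl⟩ := hm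
    have hNX := hZmem N hN
    rw [hZ, Finset.mem_filter, Fintype.mem_piFinset] at hN
    obtain ⟨-, hAd, hcnt, hsg⟩ := hN
    beta_reduce
    set ρ : Fin k → ℕ := fun i => (W * T - 1 - N i) % W with hρ
    -- the residues
    have hbX : ∀ i, bb ρ ≤ N i := by
      intro i
      have h1 := hbbW ρ
      have h2 := (hNX i).1
      omega
    have hbas : ∀ i, ∃ u r, r < W ∧ N i = bb ρ + r + W * u := by
      intro i
      refine ⟨(N i - bb ρ) / W, (N i - bb ρ) % W, Nat.mod_lt _ hWpos, ?_⟩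
      have h1 := Nat.div_add_mod (N i - bb ρ) W
      have h2 := hbX i
      omega
    have hνN : (fun i => N i % W) = ν ρ := by
      funext i
      obtain ⟨u, r, hr, hu⟩ := hbas i
      have h1 := (arith hWpos (hbbW ρ) hr hu (hNX i).1 (hNX i).2 h3X hWq hXpos).2.2.2
      have h2 := Nat.mod_lt (N i) hWpos
      show N i % W = W - 1 - (W * T - 1 - N i) % W
      rw [h1]
      omega
    have hrr2 : ∀ i, rr' ρ i = (N i - bb ρ) % W := by
      intro i
      have h1 : ((ν ρ i : ℕ) : ZMod W) = (N i : ZMod W) := by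
        rw [← congrFun hνN i, ZMod.natCast_mod]
      show (((ν ρ i : ℕ) : ZMod W) - (bb ρ : ZMod W)).val = _
      rw [h1, ← Nat.cast_sub (hbX i), ZMod.val_natCast]
    set u : Fin k → ℕ := fun i => (N i - bb ρ) / W with hu
    have hNu : ∀ i, N i = bb ρ + rr' ρ i + W * u i := by
      intro i
      have h1 := Nat.div_add_mod (N i - bb ρ) W
      have h2 := hbX i
      rw [hrr2 i]
      show N i = bb ρ + (N i - bb ρ) % W + W * ((N i - bb ρ) / W)
      omega
    have har := fun i => arith hWpos (hbbW ρ) (hrrW ρ i) (hNu i) (hNX i).1 (hNX i).2 h3X hWq hXpos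
    set tt : Fin (k + 1) → ℕ := fun j => t + (bb ρ + aa (fun i => W * T - 1 - N i) j) / W with htt
    have htt0 : tt 0 = t := by
      show t + (bb ρ + aa (fun i => W * T - 1 - N i) 0) / W = t
      have h1 : aa (fun i => W * T - 1 - N i) 0 = 0 := rfl
      rw [h1, add_zero, Nat.div_eq_of_lt (hbbW ρ), add_zero]
    have htti : ∀ i : Fin k, tt i.succ = t + (T - 1 - u i) := by
      intro i
      show t + (bb ρ + (W * T - 1 - N i)) / W = _
      rw [(har i).2.2.1]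
    have hC : ∀ j, DD W T (bb ρ) (rr' ρ) j + W * tt j = (W * t + bb ρ : ℤ) - aa N j := by
      intro j
      refine Fin.cases ?_ (fun i => ?_) j
      · rw [htt0]
        show (bb ρ : ℤ) + W * t = W * t + bb ρ - ((0 : ℕ) : ℤ)
        push_cast; ring
      · rw [htti i]
        show -(rr' ρ i : ℤ) - W * ((T : ℤ) - 1) + W * ((t + (T - 1 - u i) : ℕ) : ℤ) = W * t + bb ρ - (N i : ℤ)
        have h1 : ((T - 1 - u i : ℕ) : ℤ) = (T : ℤ) - 1 - u i := by
          have := (har i).1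
          omega
        rw [hNu i]
        push_cast [h1]
        ring
    by_contra hcon
    have hT100 := hEx2 ρ ⟨N, hAd, hνN⟩ tt (by
        intro j
        refine Fin.cases ?_ (fun i => ?_) j
        · rw [htt0]; omega
        · rw [htti i]
          have := (har i).1
          have := (har i).2.1
          omega) (by
        intro j
        refine Fin.cases ?_ (fun i => ?_) j
        · rw [htt0]; omega
        · rw [htti i]
          have := (har i).1
          have := (har i).2.1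
          omega) hcon (by
        intro i j hij
        by_contra hne
        apply hsg
        refine ⟨i, j, hne, Or.inl ?_⟩
        simp only at hij
        rw [hC i, hC j] at hij
        omega) (by
        intro i j
        rw [hC i, hC j]
        have e : ((W : ℤ) * t + bb ρ - aa N i) - (W * t + bb ρ - aa N j) = (aa N j : ℤ) - aa N i := by ring
        rw [e]
        by_cases hij : i = j
        · subst hij
          rw [sub_self]
          unfold Sg
          simpa using hε0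
        · by_contra hcon2
          push Not at hcon2
          exact hsg ⟨j, i, fun h => hij h.symm, Or.inr hcon2⟩)
    have hlow := count_lowerG (k := k) (W := W) (T := T) (S₀ := q / 2) (X := X) (b := bb ρ) (t := t) hWpos h.hc0 h.hcB h.hcp h.hB1 N
      (rr' ρ) tt htt0 (by
        intro i s hs
        rw [htti i] at hs ⊢
        have h1 := (har i).1
        have h2 : s + t ≤ u i := by omega
        have h3 : T - 1 - (s + (t + (T - 1 - u i))) = u i - (s + t) := by omega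
        rw [h3, hNu i, Nat.mul_sub]
        have h4 : W * (s + t) ≤ W * u i := Nat.mul_le_mul_left W h2
        omega) (by
        intro s hs
        have h1 : s + t + 1 ≤ q := by omega
        have h2 : W * (s + t + 1) ≤ W * q := Nat.mul_le_mul_left W h1
        have h3 := hbbW ρ
        rw [Nat.mul_add, Nat.mul_one] at h2
        omega)
    have h1 : (T : ℝ) / 100 ≤ B₀ ^ (k + 1) * Gn N X := hT100.trans hlow
    have h2 : B₀ ^ (k + 1) ≤ Real.exp (l / 1000) := (pow_le_pow_right₀ h.hB1 (by omega)).trans h.hBD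
    have h3 : B₀ ^ (k + 1) * (Gn N X : ℝ) ≤ Real.exp (l / 1000) * (X * Real.exp (-(l / 300))) := by
      apply mul_le_mul h2 hcnt.le (Nat.cast_nonneg _) (Real.exp_pos _).le
    have h4 : 3 * (X : ℝ) * Real.exp (-(l / 700)) ≤ 100 * (Real.exp (l / 1000) * (X * Real.exp (-(l / 300)))) := by linarith
    have h5 : Real.exp (l / 1000) * (X * Real.exp (-(l / 300))) = X * Real.exp (-(l / 700)) * Real.exp (l / 1000 + -(l / 300) + l / 700) := by
      rw [Real.exp_add, Real.exp_add]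
      have : Real.exp (-(l / 700)) * Real.exp (l / 700) = 1 := by rw [← Real.exp_add]; simp
      calc Real.exp (l / 1000) * (X * Real.exp (-(l / 300))) = Real.exp (l / 1000) * (X * Real.exp (-(l / 300))) * (Real.exp (-(l / 700)) * Real.exp (l / 700)) := by
            rw [this, mul_one]
        _ = _ := by ring
    rw [h5] at h4
    have h6 : Real.exp (l / 1000 + -(l / 300) + l / 700) ≤ 1 / 1000 := by
      have h7 : l / 1000 + -(l / 300) + l / 700 ≤ -7 := by linarith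
      refine (Real.exp_le_exp.2 h7).trans ?_
      rw [Real.exp_neg, ← one_div]
      apply one_div_le_one_div_of_le (by norm_num)
      have h8 : Real.exp 7 = Real.exp 1 ^ 7 := by rw [← Real.exp_nat_mul]; norm_num
      rw [h8]
      have h9 : (2.7 : ℝ) ^ 7 ≤ Real.exp 1 ^ 7 := pow_le_pow_left₀ (by norm_num) (by have := Real.exp_one_gt_d9; linarith) 7
      refine le_trans ?_ h9
      norm_num
    have h7 : 0 < (X : ℝ) * Real.exp (-(l / 700)) := by positivity
    have h8 : (X : ℝ) * Real.exp (-(l / 700)) * Real.exp (l / 1000 + -(l / 300) + l / 700) ≤ X * Real.exp (-(l / 700)) * (1 / 1000) :=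
      mul_le_mul_of_nonneg_left h6 h7.le
    linarith)
  -- the number of exceptional vectors
  have hM : K * (2 * m₀ ^ 2 * a / τ ^ 2) * (T : ℝ) ^ (K - 1) ≤ (T : ℝ) ^ k * T * Real.exp (-(l / 200)) := by
    have hKk : K - 1 = k := by omega
    rw [hKk]
    have h1 : m₀ ^ 2 ≤ (T * Real.exp (-(l / 200))) ^ 2 := pow_le_pow_left₀ h.hm0 h.hm1 2
    have h2 : B₀ ^ (2 * K) ≤ Real.exp (l / 1000) := (pow_le_pow_right₀ h.hB1 (by omega)).trans h.hBD
    have e : (K : ℝ) * (2 * m₀ ^ 2 * a / τ ^ 2) = m₀ ^ 2 * B₀ ^ (2 * K) * (4 * K * l ^ (c₁ + 4)) / T := by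
      rw [ha, ha₁, hτ]
      field_simp
      ring
    rw [e]
    have h3 : m₀ ^ 2 * B₀ ^ (2 * K) * (4 * K * l ^ (c₁ + 4)) ≤ (T * Real.exp (-(l / 200))) ^ 2 * Real.exp (l / 1000) * Real.exp (l / 250) := by
      gcongr
    have h4 : ((T : ℝ) * Real.exp (-(l / 200))) ^ 2 * Real.exp (l / 1000) * Real.exp (l / 250) = T * (T * Real.exp (-(l / 200))) := by
      have h5 : Real.exp (-(l / 200)) * Real.exp (l / 1000) * Real.exp (l / 250) = 1 := by
        rw [← Real.exp_add, ← Real.exp_add]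
        have : -(l / 200) + l / 1000 + l / 250 = 0 := by ring
        rw [this, Real.exp_zero]
      calc ((T : ℝ) * Real.exp (-(l / 200))) ^ 2 * Real.exp (l / 1000) * Real.exp (l / 250) =
            T * (T * Real.exp (-(l / 200))) * (Real.exp (-(l / 200)) * Real.exp (l / 1000) * Real.exp (l / 250)) := by ring
        _ = _ := by rw [h5, mul_one]
    rw [h4] at h3
    have h6 : m₀ ^ 2 * B₀ ^ (2 * K) * (4 * K * l ^ (c₁ + 4)) / T ≤ T * Real.exp (-(l / 200)) := by
      rw [div_le_iff₀ hT0]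
      linarith
    calc m₀ ^ 2 * B₀ ^ (2 * K) * (4 * K * l ^ (c₁ + 4)) / T * (T : ℝ) ^ k ≤ T * Real.exp (-(l / 200)) * (T : ℝ) ^ k :=
          mul_le_mul_of_nonneg_right h6 (by positivity)
      _ = _ := by ring
  have hY : (T : ℝ) / 20 ≤ ((q / 4 : ℕ) : ℝ) := by
    have h1 : (T : ℝ) ≤ 4 * q + 4 := by exact_mod_cast hq2
    have h2 : (q : ℝ) ≤ 4 * ((q / 4 : ℕ) : ℝ) + 3 := by
      have : q ≤ 4 * (q / 4) + 3 := by omega
      exact_mod_cast this
    have h3 : (20 : ℝ) ≤ q := by exact_mod_cast hq20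
    rw [div_le_iff₀ (by norm_num)]
    linarith
  rw [hZcard] at hcn
  have hfin : (Z.card : ℝ) * (T / 20) ≤ (W : ℝ) ^ k * ((T : ℝ) ^ k * T * Real.exp (-(l / 200))) := by
    calc (Z.card : ℝ) * (T / 20) ≤ Z.card * ((q / 4 : ℕ) : ℝ) := mul_le_mul_of_nonneg_left hY (Nat.cast_nonneg _)
      _ ≤ _ := hcn
      _ ≤ _ := mul_le_mul_of_nonneg_left hM (by positivity)
  have hfin2 : (Z.card : ℝ) ≤ 20 * ((W * T) ^ k * Real.exp (-(l / 200))) := by
    have h1 : (Z.card : ℝ) * T ≤ 20 * ((W * T) ^ k * Real.exp (-(l / 200))) * T := by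
      rw [mul_pow]
      linarith
    exact le_of_mul_le_mul_right h1 hT0
  refine hfin2.trans ?_
  have h1 : ((W : ℝ) * T) ^ k ≤ (5 * X) ^ k := pow_le_pow_left₀ (by positivity) (by linarith) k
  have h2 : (5 * (X : ℝ)) ^ k = 5 ^ k * (X : ℝ) ^ k := mul_pow _ _ _
  rw [h2] at h1
  calc 20 * (((W : ℝ) * T) ^ k * Real.exp (-(l / 200))) ≤ 20 * ((5 ^ k * (X : ℝ) ^ k) * Real.exp (-(l / 200))) :=
        mul_le_mul_of_nonneg_left (mul_le_mul_of_nonneg_right h1 (Real.exp_pos _).le) (by norm_num)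
    _ = _ := by ring

end Pool.Agent.J4H81.GB
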