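import Pool.Agent.J4H81.GB.ClsX
import Pool.Agent.J4H81.GB.Fb

/-!
# Project GX: exceptional vectors at one scale
-/

set_option autoImplicit false

namespace Pool.Agent.J4H81.GB

open Finset MeasureTheory Filter
open Pool.Agent.J4H81.PT Pool.Agent.J4H32.MV

/-- the form belonging to `x`: `x - n` or `n + x` -/
def fo (s : Bool) (n x : ℕ) : ℕ := if s then x - n else n + x

/-- the number of the primes `n ≤ X / 2` such that all the forms are primes -/
noncomputable def GX {k : ℕ} (σ : Fin k → Bool) (x : Fin k → ℕ) (X : ℕ) : ℕ :=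
  ((Icc 1 (X / 2)).filter (fun n => n.Prime ∧ ∀ i, (fo (σ i) n (x i)).Prime)).card

/-- the range of an entry -/
def rg (s : Bool) (X : ℕ) : Finset ℕ := if s then Ioc X (2 * X) else Icc 1 X

theorem count_lowerX {k W T S₀ X b t : ℕ} {σ : Fin k → Bool} {c : ℕ → ℝ} {B₀ : ℝ} (hW : 0 < W) (hc0 : ∀ n, 0 ≤ c n) (hcB : ∀ n, c n ≤ B₀)
    (hcp : ∀ n, c n ≠ 0 → n.Prime) (hB1 : 1 ≤ B₀) (x r : Fin k → ℕ) (τ : Fin (k + 1) → ℕ) (h0 : τ 0 = t)
    (hrt : ∀ i s, σ i = true → s + τ (Fin.succ i) < T → r i + W * (T - 1 - (s + τ (Fin.succ i))) + (b + W * (s + t)) = x i)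
    (hrf : ∀ i s, σ i = false → r i + W * (s + τ (Fin.succ i)) = b + W * (s + t) + x i)
    (hX : ∀ s < S₀, b + W * (s + t) ≤ X / 2) :
    ∑ s ∈ range S₀, ∏ j, FX σ W T c b r j (s + τ j) ≤ B₀ ^ (k + 1) * GX σ x X := by
  classical
  have hB0 : 0 ≤ B₀ := by linarith
  set G : Finset ℕ := (range S₀).filter (fun s => ∀ j, FX σ W T c b r j (s + τ j) ≠ 0) with hG
  have h1 : ∑ s ∈ range S₀, ∏ j, FX σ W T c b r j (s + τ j) = ∑ s ∈ G, ∏ j, FX σ W T c b r j (s + τ j) := by
    rw [hG, sum_filter]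
    refine sum_congr rfl fun s _ => ?_
    split_ifs with h
    · rfl
    · push Not at h
      obtain ⟨j, hj⟩ := h
      exact prod_eq_zero (Finset.mem_univ j) hj
  rw [h1]
  have h2 : ∑ s ∈ G, ∏ j, FX σ W T c b r j (s + τ j) ≤ ∑ s ∈ G, B₀ ^ (k + 1) := by
    apply sum_le_sum
    intro s _
    calc ∏ j, FX σ W T c b r j (s + τ j) ≤ ∏ j : Fin (k + 1), B₀ :=
          prod_le_prod (fun _ _ => FX_nonneg σ hc0 b r _ _) fun _ _ => FX_le σ hW hB0 hc0 hcB b r _ _
      _ = B₀ ^ (k + 1) := by rw [prod_const, card_univ, Fintype.card_fin]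
  refine h2.trans ?_
  rw [sum_const, nsmul_eq_mul, mul_comm]
  apply mul_le_mul_of_nonneg_left _ (by positivity)
  have h3 : G.card ≤ GX σ x X := by
    unfold GX
    apply card_le_card_of_injOn (fun s => b + W * (s + t))
    · intro s hs
      rw [Finset.mem_coe, hG, Finset.mem_filter, Finset.mem_range] at hs
      have hpr : (b + W * (s + t)).Prime := by
        have h4 : FFc W c b (s + τ 0) ≠ 0 := hs.2 0
        rw [h0] at h4
        exact FFc_prime hcp h4
      have hpr2 : ∀ i, (fo (σ i) (b + W * (s + t)) (x i)).Prime := by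
        intro i
        cases hσ : σ i
        · have h4 := hs.2 (Fin.succ i)
          rw [FX_false hσ] at h4
          have h7 := FFc_prime hcp h4
          rw [hrf i s hσ] at h7
          exact h7
        · have h4 := hs.2 (Fin.succ i)
          rw [FX_true hσ] at h4
          obtain ⟨h5, h6⟩ := rf_ne h4
          have h7 := FFc_prime hcp h6
          have h8 := hrt i s hσ h5
          have e : x i - (b + W * (s + t)) = r i + W * (T - 1 - (s + τ (Fin.succ i))) := by omega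
          show (x i - (b + W * (s + t))).Prime
          rw [e]
          exact h7
      rw [Finset.mem_coe, Finset.mem_filter, Finset.mem_Icc]
      exact ⟨⟨hpr.one_lt.le, hX s hs.1⟩, hpr, hpr2⟩
    · intro s _ s' _ h
      simp only at h
      have h4 : W * (s + t) = W * (s' + t) := by omega
      have h5 := Nat.eq_of_mul_eq_mul_left hW h4
      omega
  exact_mod_cast h3

open Classical in
theorem fin1X (hTE : S_TE) (hMD : S_MDZ) (hEV : S_EV) (hREF : S_REF) (hRC : S_RC) (hRCX : S_RCX) (hMB : S_MBZ) (hCN : S_CN) {k D c₁ : ℕ} (σ : Fin k → Bool) {η l ε C : ℝ} {X : ℕ}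
    (hKη : ((k + 1 : ℕ) : ℝ) * η ≤ 1 / 64)
    (hD : D = 2 * (k + 1) + c₁ + 5)
    (hPS : ∀ Q : ℕ, (Q : ℝ) ≤ Real.exp l → ∑ p ∈ (range (Q + 1)).filter Nat.Prime, 1 / (p : ℝ) ≤ C * Real.log l)
    (hc₁ : 4 ^ (k + 1) * (2 * ((k + 1 : ℕ) : ℝ) + 2) * C ≤ c₁)
    (hl4 : 10 ^ 4 ≤ l) (hl2 : 4 * (((k + 1 : ℕ) : ℝ) * (2 * ((k + 1 : ℕ) : ℝ)) ^ (2 * (k + 1))) ≤ l) (hl3 : 1000 * ((k + 1 : ℕ) : ℝ) ≤ l)
    (hl5 : 24000 * (2 ^ (k + 1) * (((k + 1 : ℕ) : ℝ) + 2)) ≤ l) (hε0 : 0 ≤ ε) (hε : 2 ^ (k + 1) * (((k + 1 : ℕ) : ℝ) + 2) * (((k + 1 : ℕ) : ℝ) ^ 2 * ε) ≤ 1 / 6)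
    (hl6 : 4 * ((k + 1 : ℕ) : ℝ) * l ^ (c₁ + 4) ≤ Real.exp (l / 250))
    (hX : Real.exp ((((k + 1 : ℕ) : ℝ) + 3) * l) ≤ X)
    (hSD : SD η D l (4 * X)) :
    ∃ w : ℕ, l / 2000 ≤ w ∧ (((Fintype.piFinset (fun i : Fin k => rg (σ i) X)).filter (fun N => AdX σ N ∧ (GX σ N X : ℝ) < X * Real.exp (-(l / 300)) ∧
      ¬ ∃ i j : Fin (k + 1), i ≠ j ∧ (es σ N i = es σ N j ∨ ε < Sg w (es σ N i - es σ N j)))).card : ℝ) ≤
        50 * 5 ^ k * (X : ℝ) ^ k * Real.exp (-(l / 200)) := by
  obtain ⟨w, W, T, Q, P, N₁, ω, c, B₀, m₀, Et, h⟩ := hSD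
  set K : ℕ := k + 1 with hKdef
  have hK1 : (1 : ℝ) ≤ (K : ℝ) := by rw [hKdef]; push_cast; linarith [(Nat.cast_nonneg k : (0 : ℝ) ≤ k)]
  have hK0 : (0 : ℝ) < (K : ℝ) := by linarith
  have hl0 : 0 < l := by linarith
  have hl1 : 1 ≤ l := by linarith
  have hWpos : 0 < W := by rw [h.hW]; exact primorial_pos w
  have : NeZero W := ⟨hWpos.ne'⟩
  have hW0 : (0 : ℝ) < W := by exact_mod_cast hWpos
  have hW1 : (1 : ℝ) ≤ W := by exact_mod_cast hWpos
  have hwr : 5 ≤ (w : ℝ) := by linarith [h.hw1]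
  have hw2 : 2 ≤ w := by
    have : (2 : ℝ) ≤ w := by linarith
    exact_mod_cast this
  have hw0 : (0 : ℝ) < w := by linarith
  have hX0 : (0 : ℝ) < X := lt_of_lt_of_le (Real.exp_pos _) hX
  have he1 : 10 ^ 4 ≤ Real.exp l := by
    have := Real.add_one_le_exp l
    linarith
  -- the ranges
  have hWX : W * 20 ≤ X := by
    have h1 : (W : ℝ) * 20 ≤ X := by
      calc (W : ℝ) * 20 ≤ Real.exp (l / 700) * Real.exp l := by
            apply mul_le_mul h.hWl (by linarith) (by norm_num) (Real.exp_pos _).le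
        _ = Real.exp (l / 700 + l) := (Real.exp_add _ _).symm
        _ ≤ Real.exp ((K + 3) * l) := by
            apply Real.exp_le_exp.2
            nlinarith only [hK1, hl0]
        _ ≤ X := hX
    exact_mod_cast h1
  obtain ⟨hq1, hq2, hWT, h3X, hq20, hWq⟩ := ranges hWpos h.hT hWX
  set q : ℕ := X / W with hq
  have hTpos : 1 ≤ T := by omega
  have hT0 : (0 : ℝ) < T := by exact_mod_cast hTpos
  have h3Xr : 3 * (X : ℝ) ≤ W * T := by exact_mod_cast h3X
  have hWTr : (W : ℝ) * T ≤ 4 * X + 1 := by exact_mod_cast hWT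
  have hX1 : (1 : ℝ) ≤ X := by
    have : 0 < X := by exact_mod_cast hX0
    exact_mod_cast this
  have hT3 : 3 * (X : ℝ) * Real.exp (-(l / 700)) ≤ T := by
    have h1 : 3 * (X : ℝ) ≤ Real.exp (l / 700) * T := h3Xr.trans (mul_le_mul_of_nonneg_right h.hWl hT0.le)
    calc 3 * (X : ℝ) * Real.exp (-(l / 700)) ≤ Real.exp (l / 700) * T * Real.exp (-(l / 700)) :=
          mul_le_mul_of_nonneg_right h1 (Real.exp_pos _).le
      _ = T * (Real.exp (l / 700) * Real.exp (-(l / 700))) := by ring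
      _ = T := by rw [← Real.exp_add]; simp
  have hTexp : Real.exp ((K + 2) * l) ≤ T := by
    calc Real.exp ((K + 2) * l) ≤ Real.exp ((K + 3) * l + -(l / 700)) := Real.exp_le_exp.2 (by linarith)
      _ = Real.exp ((K + 3) * l) * Real.exp (-(l / 700)) := Real.exp_add _ _
      _ ≤ X * Real.exp (-(l / 700)) := mul_le_mul_of_nonneg_right hX (Real.exp_pos _).le
      _ ≤ 3 * X * Real.exp (-(l / 700)) := by
          apply mul_le_mul_of_nonneg_right _ (Real.exp_pos _).le
          linarith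
      _ ≤ T := hT3
  -- the moments
  have hB0 : 0 < B₀ := by linarith [h.hB1]
  have hB2K : 0 < B₀ ^ (2 * K) := by positivity
  have hQel : (Q : ℝ) ≤ Real.exp l := h.hQl.trans (Real.exp_le_exp.2 (by linarith))
  have hlc1 : 1 ≤ l ^ c₁ := one_le_pow₀ hl1
  have hQpow : (Q : ℝ) ^ (4 * K) ≤ Real.exp ((K : ℝ) * l) := by
    calc (Q : ℝ) ^ (4 * K) ≤ Real.exp (l / 40) ^ (4 * K) := pow_le_pow_left₀ (Nat.cast_nonneg _) h.hQl _
      _ = Real.exp ((4 * K : ℕ) * (l / 40)) := by rw [← Real.exp_nat_mul]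
      _ ≤ Real.exp ((K : ℝ) * l) := by
          apply Real.exp_le_exp.2
          push_cast
          nlinarith only [hK0, hl0]
  have hQpow2 : (Q : ℝ) ^ (2 * K) ≤ Real.exp ((K : ℝ) * l) := by
    have hQ1 : (1 : ℝ) ≤ Q := by exact_mod_cast h.hQ1
    exact (pow_le_pow_right₀ hQ1 (by omega)).trans hQpow
  set a₁ : ℝ := 2 * l ^ c₁ * T with ha₁
  have hMB' : ∀ (C : Fin K → ℤ) (S : Finset (Fin K)), ∑ s ∈ range T, ∏ j ∈ S, GG W Q (C j + W * s) ^ 2 ≤ a₁ := by
    intro C' S
    refine (hMB K W Q T C' S h.hQ1 hTpos).trans ?_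
    have h1 : Real.exp (4 ^ K * (2 * (K : ℝ) + 2) * ∑ p ∈ (range (Q + 1)).filter Nat.Prime, 1 / (p : ℝ)) ≤ l ^ c₁ := by
      have h2 := hPS Q hQel
      have h3 : l ^ c₁ = Real.exp (c₁ * Real.log l) := by rw [Real.exp_nat_mul, Real.exp_log hl0]
      rw [h3]
      apply Real.exp_le_exp.2
      have hlog : 0 ≤ Real.log l := Real.log_nonneg hl1
      calc 4 ^ K * (2 * (K : ℝ) + 2) * ∑ p ∈ (range (Q + 1)).filter Nat.Prime, 1 / (p : ℝ) ≤ 4 ^ K * (2 * (K : ℝ) + 2) * (C * Real.log l) :=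
            mul_le_mul_of_nonneg_left h2 (by positivity)
        _ = (4 ^ K * (2 * (K : ℝ) + 2) * C) * Real.log l := by ring
        _ ≤ c₁ * Real.log l := mul_le_mul_of_nonneg_right hc₁ hlog
    have h4 : 4 * (Q : ℝ) ^ (4 * K) ≤ T := by
      calc 4 * (Q : ℝ) ^ (4 * K) ≤ Real.exp l * Real.exp ((K : ℝ) * l) := by
            apply mul_le_mul (by linarith) hQpow (by positivity) (Real.exp_pos _).le
        _ = Real.exp (l + K * l) := (Real.exp_add _ _).symm
        _ ≤ Real.exp ((K + 2) * l) := Real.exp_le_exp.2 (by linarith)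
        _ ≤ T := hTexp
    have h5 : (T : ℝ) ≤ l ^ c₁ * T := le_mul_of_one_le_left hT0.le hlc1
    have h6 := mul_le_mul_of_nonneg_right h1 hT0.le
    rw [ha₁]
    linarith
  set a : ℝ := B₀ ^ (2 * K) * a₁ with ha
  set E : ℝ := T / (B₀ ^ (2 * K) * l ^ (c₁ + 4)) with hE
  have hE0 : 0 < E := by positivity
  set τ : ℝ := T / l ^ 2 with hτ
  have hτ0 : 0 < τ := by positivity
  have hEa : E * a = 2 * (T / l ^ 2) ^ 2 := by
    rw [hE, ha, ha₁]
    field_simp
    ring
  have hsqrt : Real.sqrt (E * a) ≤ 2 * (T / l ^ 2) := by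
    rw [hEa]
    apply Real.sqrt_le_iff.2
    refine ⟨by positivity, ?_⟩
    have : 0 ≤ ((T : ℝ) / l ^ 2) ^ 2 := sq_nonneg _
    nlinarith only [this]
  have hsm : K * (Real.sqrt (E * a) + τ) ≤ T / 200 := by
    have h1 : (K : ℝ) * (Real.sqrt (E * a) + τ) ≤ K * (2 * (T / l ^ 2) + T / l ^ 2) := by
      apply mul_le_mul_of_nonneg_left _ hK0.le
      rw [hτ]
      linarith
    refine h1.trans ?_
    have e : (K : ℝ) * (2 * (T / l ^ 2) + T / l ^ 2) = (3 * K * T) / l ^ 2 := by ring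
    rw [e, div_le_div_iff₀ (by positivity) (by norm_num)]
    have h2 : 600 * (K : ℝ) ≤ l ^ 2 := by nlinarith only [hl3, hl1, hK0]
    calc 3 * K * T * 200 = (600 * (K : ℝ)) * T := by ring
      _ ≤ l ^ 2 * T := mul_le_mul_of_nonneg_right h2 hT0.le
      _ = T * l ^ 2 := by ring
  have hδ : 2 ^ K * ((K : ℝ) + 2) * (2 / w + K ^ 2 * ε) ≤ 1 / 3 := by
    have h1 : 2 ^ K * ((K : ℝ) + 2) * (2 / w) ≤ 1 / 6 := by
      have h2 : 12 * (2 ^ K * ((K : ℝ) + 2)) ≤ w := by linarith [h.hw1]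
      rw [mul_div_assoc', div_le_div_iff₀ hw0 (by norm_num)]
      linarith
    rw [mul_add]
    linarith
  have hQT : 2 * (Q : ℝ) ^ (2 * K) * (3 * K + 2) ≤ T / 200 := by
    rw [le_div_iff₀ (by norm_num)]
    have h1 : 2 * (3 * (K : ℝ) + 2) * 200 ≤ Real.exp l := by
      have h2 := Real.add_one_le_exp (l / 2)
      have h3 : Real.exp l = Real.exp (l / 2) * Real.exp (l / 2) := by rw [← Real.exp_add]; congr 1; ring
      rw [h3]
      nlinarith
    calc 2 * (Q : ℝ) ^ (2 * K) * (3 * K + 2) * 200 = (2 * (3 * (K : ℝ) + 2) * 200) * (Q : ℝ) ^ (2 * K) := by ring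
      _ ≤ Real.exp l * Real.exp ((K : ℝ) * l) := mul_le_mul h1 hQpow2 (by positivity) (Real.exp_pos _).le
      _ = Real.exp (l + K * l) := (Real.exp_add _ _).symm
      _ ≤ Real.exp ((K + 2) * l) := Real.exp_le_exp.2 (by linarith)
      _ ≤ T := hTexp
  -- the classes
  obtain ⟨B, hBE, hBgood⟩ := cls h hTpos hE0
  have hBD : (B.card : ℝ) * l ^ (2 * K + 1) ≤ W := by
    have hEt0 : 0 ≤ Et := le_trans (by positivity) hBE
    have h1 : (B.card : ℝ) * T ≤ Et * (B₀ ^ (2 * K) * l ^ (c₁ + 4)) := by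
      rw [hE, mul_div_assoc', div_le_iff₀ (by positivity)] at hBE
      exact hBE
    have h2 : B₀ ^ (2 * K) ≤ B₀ ^ D := pow_le_pow_right₀ h.hB1 (by omega)
    have h3 : (B.card : ℝ) * T * l ^ (2 * K + 1) ≤ W * T := by
      calc (B.card : ℝ) * T * l ^ (2 * K + 1) ≤ Et * (B₀ ^ (2 * K) * l ^ (c₁ + 4)) * l ^ (2 * K + 1) :=
            mul_le_mul_of_nonneg_right h1 (by positivity)
        _ = Et * (B₀ ^ (2 * K) * l ^ D) := by
            rw [hD]
            have : l ^ (2 * K + c₁ + 5) = l ^ (c₁ + 4) * l ^ (2 * K + 1) := by rw [← pow_add]; congr 1; omega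
            rw [this]
            ring
        _ ≤ Et * (B₀ ^ D * l ^ D) := by
            apply mul_le_mul_of_nonneg_left _ hEt0
            exact mul_le_mul_of_nonneg_right h2 (by positivity)
        _ ≤ ((W * T : ℕ) : ℝ) := h.hEt1
        _ = W * T := by push_cast; ring
    have h4 : (B.card : ℝ) * l ^ (2 * K + 1) * T ≤ W * T := by
      calc _ = (B.card : ℝ) * T * l ^ (2 * K + 1) := by ring
        _ ≤ _ := h3
    exact le_of_mul_le_mul_right h4 hT0
  have hRCB : 2 * ((k + 1 : ℕ) : ℝ) * B.card * ((2 * ((k + 1 : ℕ) : ℝ)) ^ (2 * (k + 1)) * (w : ℝ) ^ (2 * (k + 1))) < W := by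
    rw [← hKdef]
    have hwl : (w : ℝ) ^ (2 * K) ≤ l ^ (2 * K) := pow_le_pow_left₀ hw0.le h.hw2 _
    have h1 : 2 * ((K : ℝ) * (2 * (K : ℝ)) ^ (2 * K)) ≤ l / 2 := by linarith
    calc 2 * (K : ℝ) * B.card * ((2 * (K : ℝ)) ^ (2 * K) * (w : ℝ) ^ (2 * K)) =
          (B.card : ℝ) * (2 * ((K : ℝ) * (2 * (K : ℝ)) ^ (2 * K))) * (w : ℝ) ^ (2 * K) := by ring
      _ ≤ (B.card : ℝ) * (l / 2) * l ^ (2 * K) := by gcongr
      _ = (B.card : ℝ) * l ^ (2 * K + 1) / 2 := by rw [pow_succ]; ring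
      _ ≤ W / 2 := by linarith
      _ < W := by linarith
  have hkw : k + 1 ≤ w := by
    have h1 : ((k + 1 : ℕ) : ℝ) ≤ w := by
      have h2 : 24000 * (1 * (((k + 1 : ℕ) : ℝ) + 2)) ≤ l := by
        refine le_trans ?_ hl5
        have h3 : (1 : ℝ) ≤ 2 ^ (k + 1) := one_le_pow₀ (by norm_num)
        have h4 : (0 : ℝ) ≤ ((k + 1 : ℕ) : ℝ) + 2 := by positivity
        nlinarith
      have h5 := h.hw1
      have h6 : (0 : ℝ) ≤ ((k + 1 : ℕ) : ℝ) := by positivity
      linarith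
    exact_mod_cast h1
  have hRCx : ∀ ρ : Fin k → ℕ, ∃ b < W, ∀ N : Fin k → ℕ, AdX σ N → (fun i => N i % W) = ρ →
      (b.Coprime W ∧ (b : ZMod W) ∉ B) ∧
      ∀ i, (σ i = true → IsUnit ((N i : ZMod W) - (b : ZMod W)) ∧ ((N i : ZMod W) - (b : ZMod W)) ∉ B) ∧
        (σ i = false → IsUnit ((b : ZMod W) + (N i : ZMod W)) ∧ ((b : ZMod W) + (N i : ZMod W)) ∉ B) := by
    intro ρ
    have hWw := h.hW
    subst hWw
    exact hRCX hRC k w σ B hkw hw2 hRCB ρ
  choose b hbW hb using hRCx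
  -- the classes of the forms in terms of the residues of `m = W T - 1 - N` or `m = N`
  set ν : (Fin k → ℕ) → (Fin k → ℕ) := fun ρ i => if σ i then W - 1 - ρ i else ρ i with hν
  set bb : (Fin k → ℕ) → ℕ := fun ρ => b (ν ρ) with hbb
  set rr' : (Fin k → ℕ) → Fin k → ℕ := fun ρ i => (if σ i then ((ν ρ i : ℕ) : ZMod W) - (bb ρ : ZMod W) else (bb ρ : ZMod W) + ((ν ρ i : ℕ) : ZMod W)).val with hrr
  have hbbW : ∀ ρ, bb ρ < W := fun ρ => hbW _
  have hrrW : ∀ ρ i, rr' ρ i < W := fun ρ i => ZMod.val_lt _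
  -- the exceptional tuples
  have hexr : ∀ ρ : Fin k → ℕ, ∃ Ex : Finset (Fin K → ℕ), (Ex.card : ℝ) ≤ K * (2 * m₀ ^ 2 * a / τ ^ 2) * (T : ℝ) ^ (K - 1) ∧
      ((∃ N₁ : Fin k → ℕ, AdX σ N₁ ∧ (fun i => N₁ i % W) = ν ρ) → ∀ t : Fin K → ℕ, (∀ j, t j < T) → (∀ j, q / 3 + t j ≤ T) → t ∉ Ex →
        Function.Injective (fun j => DX σ W T (bb ρ) (rr' ρ) j + W * t j) →
        (∀ i j, Sg w ((DX σ W T (bb ρ) (rr' ρ) i + W * t i) - (DX σ W T (bb ρ) (rr' ρ) j + W * t j)) ≤ ε) →
        (T : ℝ) / 100 ≤ ∑ s ∈ range (q / 3), ∏ j, FX σ W T c (bb ρ) (rr' ρ) j (s + t j)) := by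
    intro ρ
    by_cases hρ : ∃ N₁ : Fin k → ℕ, AdX σ N₁ ∧ (fun i => N₁ i % W) = ν ρ
    · obtain ⟨N₁, hN₁, hres⟩ := hρ
      have hgood := hb (ν ρ) N₁ hN₁ hres
      have hcast : ∀ i, (N₁ i : ZMod W) = ((ν ρ i : ℕ) : ZMod W) := by
        intro i
        rw [← congrFun hres i, ZMod.natCast_mod]
      have hcls : ∀ x : ℕ, x = bb ρ ∨ (∃ i, x = rr' ρ i) → x < W ∧ x.Coprime W ∧ (x : ZMod W) ∉ B := by
        rintro x (rfl | ⟨i, rfl⟩)
        · exact ⟨hbbW ρ, hgood.1.1, hgood.1.2⟩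
        · cases hσ : σ i
          · obtain ⟨g1, g2⟩ := (hgood.2 i).2 hσ
            rw [hcast i] at g1 g2
            have e : ((rr' ρ i : ℕ) : ZMod W) = (bb ρ : ZMod W) + ((ν ρ i : ℕ) : ZMod W) := by
              rw [hrr]
              simp only [hσ]
              exact ZMod.natCast_zmod_val _
            refine ⟨hrrW ρ i, ?_, ?_⟩
            · rw [← ZMod.isUnit_iff_coprime, e]
              exact g1
            · rw [e]
              exact g2
          · obtain ⟨g1, g2⟩ := (hgood.2 i).1 hσ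
            rw [hcast i] at g1 g2
            have e : ((rr' ρ i : ℕ) : ZMod W) = ((ν ρ i : ℕ) : ZMod W) - (bb ρ : ZMod W) := by
              rw [hrr]
              simp only [hσ, if_true]
              exact ZMod.natCast_zmod_val _
            refine ⟨hrrW ρ i, ?_, ?_⟩
            · rw [← ZMod.isUnit_iff_coprime, e]
              exact g1
            · rw [e]
              exact g2
      obtain ⟨Ex, hEx1, hEx2⟩ := coreX hTE hMD hEV hREF σ h (E := E) (a := a) (a₁ := a₁) (τ := τ) (ε := ε) (S₀ := q / 3) hw2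
        (bb ρ) (rr' ρ) (hbbW ρ) (hrrW ρ) (fun x hx => hBgood x (hcls x hx).1 (hcls x hx).2.1 (hcls x hx).2.2) hMB' le_rfl hτ0 (by omega) (by
          have h1 : (T : ℝ) ≤ 4 * q + 4 := by exact_mod_cast hq2
          have h2 : (q : ℝ) ≤ 3 * ((q / 3 : ℕ) : ℝ) + 2 := by
            have : q ≤ 3 * (q / 3) + 2 := by omega
            exact_mod_cast this
          have h3 : (20 : ℝ) ≤ q := by exact_mod_cast hq20
          rw [div_le_iff₀ (by norm_num)]
          linarith) hKη hsm hδ hQT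
      exact ⟨Ex, hEx1, fun _ => hEx2⟩
    · refine ⟨∅, ?_, fun h1 => absurd h1 hρ⟩
      rw [card_empty, Nat.cast_zero]
      have := h.hm0
      positivity
  choose Ex hEx1 hEx2 using hexr
  refine ⟨w, h.hw1, ?_⟩
  set Z : Finset (Fin k → ℕ) := (Fintype.piFinset (fun i : Fin k => rg (σ i) X)).filter (fun N => AdX σ N ∧ (GX σ N X : ℝ) < X * Real.exp (-(l / 300)) ∧
      ¬ ∃ i j : Fin (k + 1), i ≠ j ∧ (es σ N i = es σ N j ∨ ε < Sg w (es σ N i - es σ N j))) with hZ
  have hXpos : 1 ≤ X := by exact_mod_cast hX1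
  set mm : (Fin k → ℕ) → Fin k → ℕ := fun N i => if σ i then W * T - 1 - N i else N i with hmm
  set Zm : Finset (Fin k → ℕ) := Z.image mm with hZm
  have hZt : ∀ N ∈ Z, ∀ i, σ i = true → X < N i ∧ N i ≤ 2 * X := by
    intro N hN i hσ
    rw [hZ, Finset.mem_filter, Fintype.mem_piFinset] at hN
    have h1 := hN.1 i
    unfold rg at h1
    rw [hσ, if_pos rfl] at h1
    exact Finset.mem_Ioc.1 h1
  have hZf : ∀ N ∈ Z, ∀ i, σ i = false → 1 ≤ N i ∧ N i ≤ X := by
    intro N hN i hσ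
    rw [hZ, Finset.mem_filter, Fintype.mem_piFinset] at hN
    have h1 := hN.1 i
    unfold rg at h1
    rw [hσ] at h1
    exact Finset.mem_Icc.1 h1
  have hZcard : Zm.card = Z.card := by
    rw [hZm]
    apply card_image_of_injOn
    intro N hN N' hN' he
    funext i
    have h1 := congrFun he i
    simp only [hmm] at h1
    cases hσ : σ i
    · rw [hσ] at h1
      exact h1
    · rw [hσ, if_pos rfl, if_pos rfl] at h1
      have h2 := hZt N hN i hσ
      have h3 := hZt N' hN' i hσ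
      omega
  have hcn := hCN k W (q / 8) Zm bb Ex _ hWpos hbbW hEx1 (by
    intro m hm t ht
    rw [hZm, Finset.mem_image] at hm
    obtain ⟨N, hN, rfl⟩ := hm
    have hNt := hZt N hN
    have hNf := hZf N hN
    rw [hZ, Finset.mem_filter, Fintype.mem_piFinset] at hN
    obtain ⟨-, hAd, hcnt, hsg⟩ := hN
    set ρ : Fin k → ℕ := fun i => mm N i % W with hρ
    -- the residues
    have hbX : ∀ i, σ i = true → bb ρ ≤ N i := by
      intro i hσ
      have h1 := hbbW ρ
      have h2 := (hNt i hσ).1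
      omega
    have hνN : (fun i => N i % W) = ν ρ := by
      funext i
      show N i % W = if σ i then W - 1 - mm N i % W else mm N i % W
      cases hσ : σ i
      · have h1 : mm N i = N i := by simp [hmm, hσ]
        rw [h1]
        rfl
      · have h1 : mm N i = W * T - 1 - N i := by simp [hmm, hσ]
        have h3 := Nat.div_add_mod (N i - bb ρ) W
        have h4 := hbX i hσ
        have h5 := Nat.mod_lt (N i - bb ρ) hWpos
        have h6 := (arith hWpos (hbbW ρ) h5 (show N i = bb ρ + (N i - bb ρ) % W + W * ((N i - bb ρ) / W) by omega) (hNt i hσ).1 (hNt i hσ).2 h3X hWq hXpos).2.2.2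
        have h2 := Nat.mod_lt (N i) hWpos
        rw [h1, if_pos rfl, h6]
        omega
    have hrr2 : ∀ i, σ i = true → rr' ρ i = (N i - bb ρ) % W := by
      intro i hσ
      have h1 : ((ν ρ i : ℕ) : ZMod W) = (N i : ZMod W) := by
        rw [← congrFun hνN i, ZMod.natCast_mod]
      show (if σ i then ((ν ρ i : ℕ) : ZMod W) - (bb ρ : ZMod W) else (bb ρ : ZMod W) + ((ν ρ i : ℕ) : ZMod W)).val = _
      rw [h1, hσ, if_pos rfl, ← Nat.cast_sub (hbX i hσ), ZMod.val_natCast]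
    have hrr3 : ∀ i, σ i = false → rr' ρ i = (bb ρ + N i) % W := by
      intro i hσ
      have h1 : ((ν ρ i : ℕ) : ZMod W) = (N i : ZMod W) := by
        rw [← congrFun hνN i, ZMod.natCast_mod]
      show (if σ i then ((ν ρ i : ℕ) : ZMod W) - (bb ρ : ZMod W) else (bb ρ : ZMod W) + ((ν ρ i : ℕ) : ZMod W)).val = _
      rw [h1, hσ]
      show ((bb ρ : ZMod W) + (N i : ZMod W)).val = _
      rw [← Nat.cast_add, ZMod.val_natCast]
    set u : Fin k → ℕ := fun i => (N i - bb ρ) / W with hu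
    have hNu : ∀ i, σ i = true → N i = bb ρ + rr' ρ i + W * u i := by
      intro i hσ
      have h1 := Nat.div_add_mod (N i - bb ρ) W
      have h2 := hbX i hσ
      rw [hrr2 i hσ]
      show N i = bb ρ + (N i - bb ρ) % W + W * ((N i - bb ρ) / W)
      omega
    have har := fun i hσ => arith hWpos (hbbW ρ) (hrrW ρ i) (hNu i hσ) (hNt i hσ).1 (hNt i hσ).2 h3X hWq hXpos
    set v : Fin k → ℕ := fun i => (bb ρ + N i) / W with hv
    have hNv : ∀ i, σ i = false → bb ρ + N i = rr' ρ i + W * v i := by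
      intro i hσ
      have h1 := Nat.div_add_mod (bb ρ + N i) W
      rw [hrr3 i hσ]
      show bb ρ + N i = (bb ρ + N i) % W + W * ((bb ρ + N i) / W)
      omega
    have hvq : ∀ i, σ i = false → v i ≤ q + 1 := by
      intro i hσ
      have h1 := hbbW ρ
      have h2 := (hNf i hσ).2
      have h3 : (bb ρ + N i) / W ≤ (W + X) / W := Nat.div_le_div_right (by omega)
      have h4 : (W + X) / W = 1 + X / W := by
        rw [Nat.add_div_left _ hWpos]
        omega
      rw [h4] at h3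
      show (bb ρ + N i) / W ≤ q + 1
      omega
    set tt : Fin (k + 1) → ℕ := fun j => t + (bb ρ + aa (mm N) j) / W with htt
    have htt0 : tt 0 = t := by
      show t + (bb ρ + aa (mm N) 0) / W = t
      have h1 : aa (mm N) 0 = 0 := rfl
      rw [h1, add_zero, Nat.div_eq_of_lt (hbbW ρ), add_zero]
    have htti : ∀ i : Fin k, σ i = true → tt i.succ = t + (T - 1 - u i) := by
      intro i hσ
      show t + (bb ρ + mm N i) / W = _
      have h1 : mm N i = W * T - 1 - N i := by simp [hmm, hσ]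
      rw [h1, (har i hσ).2.2.1]
    have httf : ∀ i : Fin k, σ i = false → tt i.succ = t + v i := by
      intro i hσ
      show t + (bb ρ + mm N i) / W = _
      have h1 : mm N i = N i := by simp [hmm, hσ]
      rw [h1]
    have hC : ∀ j, DX σ W T (bb ρ) (rr' ρ) j + W * tt j = (W * t + bb ρ : ℤ) + es σ N j := by
      intro j
      refine Fin.cases ?_ (fun i => ?_) j
      · rw [htt0]
        show (bb ρ : ℤ) + W * t = W * t + bb ρ + 0
        ring
      · cases hσ : σ i
        · rw [httf i hσ, DX_false hσ]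
          have h2 : es σ N i.succ = (N i : ℤ) := by unfold es; simp [hσ]
          rw [h2]
          have h3 : ((bb ρ : ℤ) + N i) = rr' ρ i + W * v i := by exact_mod_cast hNv i hσ
          push_cast
          linarith
        · rw [htti i hσ, DX_true hσ]
          have h2 : es σ N i.succ = -(N i : ℤ) := by unfold es; simp [hσ]
          rw [h2]
          have h1 : ((T - 1 - u i : ℕ) : ℤ) = (T : ℤ) - 1 - u i := by
            have := (har i hσ).1
            omega
          have h3 : ((N i : ℕ) : ℤ) = bb ρ + rr' ρ i + W * u i := by exact_mod_cast hNu i hσ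
          rw [h3]
          push_cast [h1]
          ring
    by_contra hcon
    have hT100 := hEx2 ρ ⟨N, hAd, hνN⟩ tt (by
        intro j
        refine Fin.cases ?_ (fun i => ?_) j
        · rw [htt0]; omega
        · cases hσ : σ i
          · rw [httf i hσ]
            have := hvq i hσ
            omega
          · rw [htti i hσ]
            have := (har i hσ).1
            have := (har i hσ).2.1
            omega) (by
        intro j
        refine Fin.cases ?_ (fun i => ?_) j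
        · rw [htt0]; omega
        · cases hσ : σ i
          · rw [httf i hσ]
            have := hvq i hσ
            omega
          · rw [htti i hσ]
            have := (har i hσ).1
            have := (har i hσ).2.1
            omega) hcon (by
        intro i j hij
        by_contra hne
        apply hsg
        refine ⟨i, j, hne, Or.inl ?_⟩
        simp only at hij
        rw [hC i, hC j] at hij
        exact add_left_cancel hij) (by
        intro i j
        rw [hC i, hC j]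
        have e : ((W : ℤ) * t + bb ρ + es σ N i) - (W * t + bb ρ + es σ N j) = es σ N i - es σ N j := by ring
        rw [e]
        by_cases hij : i = j
        · subst hij
          rw [sub_self]
          unfold Sg
          simpa using hε0
        · by_contra hcon2
          push Not at hcon2
          exact hsg ⟨i, j, hij, Or.inr hcon2⟩)
    have hlow := count_lowerX (k := k) (W := W) (T := T) (S₀ := q / 3) (X := X) (b := bb ρ) (t := t) (σ := σ) hWpos h.hc0 h.hcB h.hcp h.hB1 N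
      (rr' ρ) tt htt0 (by
        intro i s hσ hs
        rw [htti i hσ] at hs ⊢
        have h1 := (har i hσ).1
        have h2 : s + t ≤ u i := by omega
        have h3 : T - 1 - (s + (t + (T - 1 - u i))) = u i - (s + t) := by omega
        have h4 : W * (s + t) ≤ W * u i := Nat.mul_le_mul_left W h2
        have h5 := hNu i hσ
        rw [h3, Nat.mul_sub]
        omega) (by
        intro i s hσ
        rw [httf i hσ]
        have h5 := hNv i hσ
        have e : W * (s + (t + v i)) = W * (s + t) + W * v i := by ring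
        rw [e]
        omega) (by
        intro s hs
        have h1 : 2 * (s + t + 1) ≤ q := by omega
        have h2 : W * (2 * (s + t + 1)) ≤ W * q := Nat.mul_le_mul_left W h1
        have h3 := hbbW ρ
        have e : W * (2 * (s + t + 1)) = 2 * (W * (s + t)) + 2 * W := by ring
        rw [e] at h2
        omega)
    have h1 : (T : ℝ) / 100 ≤ B₀ ^ (k + 1) * GX σ N X := hT100.trans hlow
    have h2 : B₀ ^ (k + 1) ≤ Real.exp (l / 1000) := (pow_le_pow_right₀ h.hB1 (by omega)).trans h.hBD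
    have h3 : B₀ ^ (k + 1) * (GX σ N X : ℝ) ≤ Real.exp (l / 1000) * (X * Real.exp (-(l / 300))) := by
      apply mul_le_mul h2 hcnt.le (Nat.cast_nonneg _) (Real.exp_pos _).le
    have h4 : 3 * (X : ℝ) * Real.exp (-(l / 700)) ≤ 100 * (Real.exp (l / 1000) * (X * Real.exp (-(l / 300)))) := by linarith
    have h5 : Real.exp (l / 1000) * (X * Real.exp (-(l / 300))) = X * Real.exp (-(l / 700)) * Real.exp (l / 1000 + -(l / 300) + l / 700) := by
      rw [Real.exp_add, Real.exp_add]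
      have : Real.exp (-(l / 700)) * Real.exp (l / 700) = 1 := by rw [← Real.exp_add]; simp
      calc Real.exp (l / 1000) * (X * Real.exp (-(l / 300))) = Real.exp (l / 1000) * (X * Real.exp (-(l / 300))) * (Real.exp (-(l / 700)) * Real.exp (l / 700)) := by
            rw [this, mul_one]
        _ = _ := by ring
    rw [h5] at h4
    have h6 : Real.exp (l / 1000 + -(l / 300) + l / 700) ≤ 1 / 1000 := by
      have h7 : l / 1000 + -(l / 300) + l / 700 ≤ -7 := by linarith
      refine (Real.exp_le_exp.2 h7).trans ?_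
      rw [Real.exp_neg, ← one_div]
      apply one_div_le_one_div_of_le (by norm_num)
      have h8 : Real.exp 7 = Real.exp 1 ^ 7 := by rw [← Real.exp_nat_mul]; norm_num
      rw [h8]
      have h9 : (2.7 : ℝ) ^ 7 ≤ Real.exp 1 ^ 7 := pow_le_pow_left₀ (by norm_num) (by have := Real.exp_one_gt_d9; linarith) 7
      refine le_trans ?_ h9
      norm_num
    have h7 : 0 < (X : ℝ) * Real.exp (-(l / 700)) := by positivity
    have h8 : (X : ℝ) * Real.exp (-(l / 700)) * Real.exp (l / 1000 + -(l / 300) + l / 700) ≤ X * Real.exp (-(l / 700)) * (1 / 1000) :=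
      mul_le_mul_of_nonneg_left h6 h7.le
    linarith)
  -- the number of exceptional vectors
  have hM : K * (2 * m₀ ^ 2 * a / τ ^ 2) * (T : ℝ) ^ (K - 1) ≤ (T : ℝ) ^ k * T * Real.exp (-(l / 200)) := by
    have hKk : K - 1 = k := by omega
    rw [hKk]
    have h1 : m₀ ^ 2 ≤ (T * Real.exp (-(l / 200))) ^ 2 := pow_le_pow_left₀ h.hm0 h.hm1 2
    have h2 : B₀ ^ (2 * K) ≤ Real.exp (l / 1000) := (pow_le_pow_right₀ h.hB1 (by omega)).trans h.hBD
    have e : (K : ℝ) * (2 * m₀ ^ 2 * a / τ ^ 2) = m₀ ^ 2 * B₀ ^ (2 * K) * (4 * K * l ^ (c₁ + 4)) / T := by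
      rw [ha, ha₁, hτ]
      field_simp
      ring
    rw [e]
    have h3 : m₀ ^ 2 * B₀ ^ (2 * K) * (4 * K * l ^ (c₁ + 4)) ≤ (T * Real.exp (-(l / 200))) ^ 2 * Real.exp (l / 1000) * Real.exp (l / 250) := by
      gcongr
    have h4 : ((T : ℝ) * Real.exp (-(l / 200))) ^ 2 * Real.exp (l / 1000) * Real.exp (l / 250) = T * (T * Real.exp (-(l / 200))) := by
      have h5 : Real.exp (-(l / 200)) * Real.exp (l / 1000) * Real.exp (l / 250) = 1 := by
        rw [← Real.exp_add, ← Real.exp_add]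
        have : -(l / 200) + l / 1000 + l / 250 = 0 := by ring
        rw [this, Real.exp_zero]
      calc ((T : ℝ) * Real.exp (-(l / 200))) ^ 2 * Real.exp (l / 1000) * Real.exp (l / 250) =
            T * (T * Real.exp (-(l / 200))) * (Real.exp (-(l / 200)) * Real.exp (l / 1000) * Real.exp (l / 250)) := by ring
        _ = _ := by rw [h5, mul_one]
    rw [h4] at h3
    have h6 : m₀ ^ 2 * B₀ ^ (2 * K) * (4 * K * l ^ (c₁ + 4)) / T ≤ T * Real.exp (-(l / 200)) := by
      rw [div_le_iff₀ hT0]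
      linarith
    calc m₀ ^ 2 * B₀ ^ (2 * K) * (4 * K * l ^ (c₁ + 4)) / T * (T : ℝ) ^ k ≤ T * Real.exp (-(l / 200)) * (T : ℝ) ^ k :=
          mul_le_mul_of_nonneg_right h6 (by positivity)
      _ = _ := by ring
  have hY : (T : ℝ) / 50 ≤ ((q / 8 : ℕ) : ℝ) := by
    have h1 : (T : ℝ) ≤ 4 * q + 4 := by exact_mod_cast hq2
    have h9 : (2 : ℝ) ≤ ((q / 8 : ℕ) : ℝ) := by
      have : 2 ≤ q / 8 := by omega
      exact_mod_cast this
    have h2 : (q : ℝ) ≤ 8 * ((q / 8 : ℕ) : ℝ) + 7 := by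
      have : q ≤ 8 * (q / 8) + 7 := by omega
      exact_mod_cast this
    have h3 : (20 : ℝ) ≤ q := by exact_mod_cast hq20
    rw [div_le_iff₀ (by norm_num)]
    linarith
  rw [hZcard] at hcn
  have hfin : (Z.card : ℝ) * (T / 50) ≤ (W : ℝ) ^ k * ((T : ℝ) ^ k * T * Real.exp (-(l / 200))) := by
    calc (Z.card : ℝ) * (T / 50) ≤ Z.card * ((q / 8 : ℕ) : ℝ) := mul_le_mul_of_nonneg_left hY (Nat.cast_nonneg _)
      _ ≤ _ := hcn
      _ ≤ _ := mul_le_mul_of_nonneg_left hM (by positivity)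
  have hfin2 : (Z.card : ℝ) ≤ 50 * ((W * T) ^ k * Real.exp (-(l / 200))) := by
    have h1 : (Z.card : ℝ) * T ≤ 50 * ((W * T) ^ k * Real.exp (-(l / 200))) * T := by
      rw [mul_pow]
      linarith
    exact le_of_mul_le_mul_right h1 hT0
  refine hfin2.trans ?_
  have h1 : ((W : ℝ) * T) ^ k ≤ (5 * X) ^ k := pow_le_pow_left₀ (by positivity) (by linarith) k
  have h2 : (5 * (X : ℝ)) ^ k = 5 ^ k * (X : ℝ) ^ k := mul_pow _ _ _
  rw [h2] at h1
  calc 50 * (((W : ℝ) * T) ^ k * Real.exp (-(l / 200))) ≤ 50 * ((5 ^ k * (X : ℝ) ^ k) * Real.exp (-(l / 200))) :=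
        mul_le_mul_of_nonneg_left (mul_le_mul_of_nonneg_right h1 (Real.exp_pos _).le) (by norm_num)
    _ = _ := by ring

end Pool.Agent.J4H81.GB
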