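import Pool.Agent.J4H81.GB.Core

/-!
# Project GB: the functions of the forms `n`, `N_i - n` in good classes
-/

set_option autoImplicit false

namespace Pool.Agent.J4H81.GB

open Finset MeasureTheory Filter
open Pool.Agent.J4H81.PT Pool.Agent.J4H32.MV

theorem rf_nonneg {T : ℕ} {H : ℕ → ℝ} (h : ∀ s, 0 ≤ H s) (s : ℕ) : 0 ≤ rf T H s := by
  unfold rf; split_ifs
  · exact h _
  · exact le_rfl

theorem rf_le {T : ℕ} {H : ℕ → ℝ} {B : ℝ} (hB : 0 ≤ B) (h : ∀ s, H s ≤ B) (s : ℕ) : rf T H s ≤ B := by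
  unfold rf; split_ifs
  · exact h _
  · exact hB

theorem rf_ge {T : ℕ} {H : ℕ → ℝ} {s : ℕ} (h : T ≤ s) : rf T H s = 0 := by
  unfold rf; rw [if_neg (by omega)]

theorem rf_sum (T : ℕ) (H : ℕ → ℝ) : ∑ s ∈ range T, rf T H s = ∑ s ∈ range T, H s := by
  rw [← sum_range_reflect (fun s => H s) T]
  refine sum_congr rfl fun s hs => ?_
  unfold rf; rw [if_pos (mem_range.1 hs)]

theorem rf_var {T : ℕ} {u : ℕ → ℝ} (h0 : ∀ s, 0 ≤ u s) (h1 : ∀ s, u s ≤ 1)
    (hvar : ∀ n : ℕ, ∑ s ∈ range n, |u (s + 1) - u s| ≤ 2) (t : ℕ) :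
    ∑ s ∈ range T, |rf T u (s + 1 + t) - rf T u (s + t)| ≤ 3 := by
  rcases Nat.eq_zero_or_pos T with hT | hT
  · subst hT; simp
  have e1 : ∑ s ∈ range T, |rf T u (s + 1 + t) - rf T u (s + t)| ≤ ∑ s ∈ range T, |rf T u (s + 1) - rf T u s| := by
    have e2 : ∑ s ∈ range T, |rf T u (s + 1 + t) - rf T u (s + t)| = ∑ s ∈ (range T).map (addRightEmbedding t), |rf T u (s + 1) - rf T u s| := by
      rw [sum_map]
      refine sum_congr rfl fun s _ => ?_
      simp only [addRightEmbedding_apply]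
      rw [show s + 1 + t = s + t + 1 by ring]
    rw [e2]
    have e3 : ∑ s ∈ (range T).map (addRightEmbedding t), |rf T u (s + 1) - rf T u s| =
        ∑ s ∈ ((range T).map (addRightEmbedding t)).filter (fun s => s < T), |rf T u (s + 1) - rf T u s| := by
      rw [sum_filter]
      refine sum_congr rfl fun s _ => ?_
      split_ifs with h
      · rfl
      · rw [rf_ge (by omega), rf_ge (by omega)]; simp
    rw [e3]
    apply sum_le_sum_of_subset_of_nonneg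
    · intro s hs
      rw [mem_filter] at hs
      exact mem_range.2 hs.2
    · intro _ _ _; exact abs_nonneg _
  refine e1.trans ?_
  obtain ⟨T', rfl⟩ : ∃ T', T = T' + 1 := ⟨T - 1, by omega⟩
  rw [sum_range_succ]
  have e4 : rf (T' + 1) u (T' + 1) = 0 := rf_ge le_rfl
  have e5 : rf (T' + 1) u T' = u 0 := by unfold rf; rw [if_pos (by omega)]; congr 1; omega
  have e6 : ∑ s ∈ range T', |rf (T' + 1) u (s + 1) - rf (T' + 1) u s| = ∑ s ∈ range T', |u (s + 1) - u s| := by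
    rw [← sum_range_reflect (fun s => |u (s + 1) - u s|) T']
    refine sum_congr rfl fun s hs => ?_
    have hs' := mem_range.1 hs
    unfold rf
    rw [if_pos (by omega), if_pos (by omega), abs_sub_comm]
    congr 3 <;> omega
  rw [e4, e5, e6, zero_sub, abs_neg, abs_of_nonneg (h0 0)]
  linarith [hvar T', h1 0]

/-- the functions of the forms -/
noncomputable def FF {k : ℕ} (W T : ℕ) (c : ℕ → ℝ) (b : ℕ) (r : Fin k → ℕ) : Fin (k + 1) → ℕ → ℝ :=
  Fin.cons (FFc W c b) (fun i => rf T (FFc W c (r i)))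

noncomputable def vv {k : ℕ} (W T : ℕ) (ω : ℕ → ℝ) (b : ℕ) (r : Fin k → ℕ) : Fin (k + 1) → ℕ → ℝ :=
  Fin.cons (fun s => ω (b + W * s)) (fun i => rf T (fun s => ω (r i + W * s)))

def DD {k : ℕ} (W T b : ℕ) (r : Fin k → ℕ) : Fin (k + 1) → ℤ :=
  Fin.cons (b : ℤ) (fun i => -(r i : ℤ) - W * ((T : ℤ) - 1))

theorem diff0 {k : ℕ} (W T Q : ℕ) (c ω : ℕ → ℝ) (b : ℕ) (r : Fin k → ℕ) :
    (fun s : ℕ => FF W T c b r 0 s - vv W T ω b r 0 s * GG W Q (DD W T b r 0 + W * s)) = fun s => FFc W c b s - gg W Q ω b s := by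
  funext s
  unfold FF vv DD gg
  simp only [Fin.cons_zero]
  push_cast
  rfl

theorem diffi (hEV : S_EV) {k : ℕ} (W T Q : ℕ) (c ω : ℕ → ℝ) (b : ℕ) (r : Fin k → ℕ) (i : Fin k) :
    (fun s : ℕ => FF W T c b r i.succ s - vv W T ω b r i.succ s * GG W Q (DD W T b r i.succ + W * s)) =
      rf T (fun s => FFc W c (r i) s - gg W Q ω (r i) s) := by
  funext s
  unfold FF vv DD gg
  simp only [Fin.cons_succ]
  unfold rf
  split_ifs with hs
  · congr 2
    have e : -(r i : ℤ) - W * ((T : ℤ) - 1) + W * s = -((r i + W * (T - 1 - s) : ℕ) : ℤ) := by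
      have : ((T - 1 - s : ℕ) : ℤ) = (T : ℤ) - 1 - s := by omega
      push_cast [this]
      ring
    rw [e, hEV]
  · simp

theorem coreC (hTE : S_TE) (hMD : S_MDZ) (hEV : S_EV) (hREF : S_REF) {k : ℕ} {η : ℝ} {D : ℕ} {l : ℝ} {y w W T Q P N₁ : ℕ} {ω c : ℕ → ℝ} {B₀ m₀ Et : ℝ}
    (h : SDat η D l y w W T Q P N₁ ω c B₀ m₀ Et) {E a a₁ τ ε : ℝ} {S₀ : ℕ} (hw : 2 ≤ w)
    (b : ℕ) (r : Fin k → ℕ) (hb : b < W) (hr : ∀ i, r i < W)
    (hgood : ∀ x : ℕ, x = b ∨ (∃ i, x = r i) →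
      (∫ α in (0 : ℝ)..1, (MA P ((P : ℝ) / T)).indicator (fun α => ‖hat (cx (fun s => FFc W c x s - gg W Q ω x s)) T α‖ ^ 2) α ≤ E) ∧
      ∀ α : ℝ, α ∉ MA P ((P : ℝ) / T) → ‖hat (cx (fun s => FFc W c x s - gg W Q ω x s)) T α‖ ≤ m₀)
    (hMB : ∀ (C : Fin (k + 1) → ℤ) (S : Finset (Fin (k + 1))), ∑ s ∈ range T, ∏ j ∈ S, GG W Q (C j + W * s) ^ 2 ≤ a₁)
    (ha : B₀ ^ (2 * (k + 1)) * a₁ ≤ a) (hτ : 0 < τ)
    (hS1 : S₀ ≤ T) (hS2 : (T : ℝ) / 16 ≤ S₀) (hKη : ((k + 1 : ℕ) : ℝ) * η ≤ 1 / 64)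
    (hsm : ((k + 1 : ℕ) : ℝ) * (Real.sqrt (E * a) + τ) ≤ T / 200)
    (hδ : 2 ^ (k + 1) * (((k + 1 : ℕ) : ℝ) + 2) * (2 / w + ((k + 1 : ℕ) : ℝ) ^ 2 * ε) ≤ 1 / 3)
    (hQT : 2 * (Q : ℝ) ^ (2 * (k + 1)) * (3 * ((k + 1 : ℕ) : ℝ) + 2) ≤ T / 200) :
    ∃ Ex : Finset (Fin (k + 1) → ℕ), (Ex.card : ℝ) ≤ ((k + 1 : ℕ) : ℝ) * (2 * m₀ ^ 2 * a / τ ^ 2) * (T : ℝ) ^ (k + 1 - 1) ∧
      ∀ t : Fin (k + 1) → ℕ, (∀ j, t j < T) → (∀ j, S₀ + t j ≤ T) → t ∉ Ex → Function.Injective (fun j => DD W T b r j + W * t j) →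
        (∀ i j, Sg w ((DD W T b r i + W * t i) - (DD W T b r j + W * t j)) ≤ ε) →
        (T : ℝ) / 100 ≤ ∑ s ∈ range S₀, ∏ j, FF W T c b r j (s + t j) := by
  have hWpos : 0 < W := by rw [h.hW]; exact primorial_pos w
  have hB0 : 0 ≤ B₀ := by linarith [h.hB1]
  have hWw : ∀ p : ℕ, p.Prime → p ≤ w → p ∣ W := fun p hp hpw => by rw [h.hW]; exact hp.dvd_primorial_iff.2 hpw
  have hvar0 : ∀ x n : ℕ, ∑ s ∈ range n, |(fun s => ω (x + W * s)) (s + 1) - (fun s => ω (x + W * s)) s| ≤ 2 := fun x n => h.hω.var x W n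
  apply coreG (η := η) hTE hMD (MA_meas P ((P : ℝ) / T)) hw h.hQ1 hWw h.hB1 h.hm0 (FF W T c b r) (vv W T ω b r) (DD W T b r)
    (a₁ := a₁) (E := E)
  · intro j s
    refine Fin.cases ?_ (fun i => ?_) j
    · exact FFc_nonneg h.hc0 _ _
    · exact rf_nonneg (FFc_nonneg h.hc0 _) _
  · intro j s
    refine Fin.cases ?_ (fun i => ?_) j
    · exact FFc_le hWpos h.hc0 h.hcB _ _
    · exact rf_le hB0 (FFc_le hWpos h.hc0 h.hcB _) _
  · intro j s hs
    refine Fin.cases ?_ (fun i => ?_) j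
    · have h1 : W * T ≤ W * s := Nat.mul_le_mul_left W hs
      have : c (b + W * s) = 0 := h.hcN _ (by omega)
      show FFc W c b s = 0
      unfold FFc; rw [this]; simp
    · exact rf_ge hs
  · intro j s
    refine Fin.cases ?_ (fun i => ?_) j
    · exact h.hω.nonneg _
    · exact rf_nonneg (fun _ => h.hω.nonneg _) _
  · intro j s
    refine Fin.cases ?_ (fun i => ?_) j
    · exact h.hω.le_one _
    · exact rf_le zero_le_one (fun _ => h.hω.le_one _) _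
  · intro j s hs
    refine Fin.cases ?_ (fun i => ?_) j
    · have h1 : W * T ≤ W * s := Nat.mul_le_mul_left W hs
      show ω (b + W * s) = 0
      exact h.hω.zero_ge _ (by omega)
    · show rf T (fun s => ω (r i + W * s)) s = 0
      exact rf_ge hs
  · intro j t
    refine Fin.cases ?_ (fun i => ?_) j
    · have h1 := h.hω.var (b + W * t) W T
      show ∑ s ∈ range T, |ω (b + W * (s + 1 + t)) - ω (b + W * (s + t))| ≤ 3
      have e : ∀ s, |ω (b + W * (s + 1 + t)) - ω (b + W * (s + t))| = |ω (b + W * t + W * (s + 1)) - ω (b + W * t + W * s)| := by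
        intro s
        congr 3 <;> ring
      simp_rw [e]
      linarith
    · show ∑ s ∈ range T, |rf T (fun s => ω (r i + W * s)) (s + 1 + t) - rf T (fun s => ω (r i + W * s)) (s + t)| ≤ 3
      exact rf_var (u := fun s => ω (r i + W * s)) (fun _ => h.hω.nonneg _) (fun _ => h.hω.le_one _) (hvar0 (r i)) t
  · intro j
    refine Fin.cases ?_ (fun i => ?_) j
    · exact h.hmass b hb
    · show (1 - η) * T ≤ ∑ s ∈ range T, rf T (fun s => ω (r i + W * s)) s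
      rw [rf_sum]
      exact h.hmass (r i) (hr i)
  · intro j
    refine Fin.cases ?_ (fun i => ?_) j
    · rw [diff0]
      exact (hgood b (Or.inl rfl)).1
    · rw [diffi hEV, (hREF T P ((P : ℝ) / T) _).1]
      exact (hgood (r i) (Or.inr ⟨i, rfl⟩)).1
  · intro j
    refine Fin.cases ?_ (fun i => ?_) j
    · rw [diff0]
      exact (hgood b (Or.inl rfl)).2
    · rw [diffi hEV]
      exact (hREF T P ((P : ℝ) / T) _).2 m₀ (hgood (r i) (Or.inr ⟨i, rfl⟩)).2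
  · exact hMB
  · exact ha
  · exact hτ
  · exact hS1
  · exact hS2
  · exact hKη
  · exact hsm
  · exact hδ
  · exact hQT

end Pool.Agent.J4H81.GB
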