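import Pool.Agent.J4H81.GB.FbX

/-!
# Project GX: exceptional vectors, conclusion (adaptation of `Pool.Agent.J4H32.MV.fin2`, `fin3` of helper32)
-/

set_option autoImplicit false

namespace Pool.Agent.J4H81.GB

open Finset MeasureTheory Filter
open Pool.Agent.J4H81.PT Pool.Agent.J4H32.MV

open Classical in
theorem fin2X (hTE : S_TE) (hMD : S_MDZ) (hEV : S_EV) (hREF : S_REF) (hRC : S_RC) (hRCX : S_RCX) (hMB : S_MBZ) (hCN : S_CN) (hPS : S_PS) (hRK : S_RK) (hBD : S_BDX) (k : ℕ) (σ : Fin k → Bool) :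
    ∃ (D : ℕ) (η κ l₀ : ℝ), 0 < η ∧ η ≤ 1 / 2 ∧ 0 < κ ∧ ∀ l : ℝ, l₀ ≤ l → ∀ X : ℕ,
      Real.exp ((((k + 1 : ℕ) : ℝ) + 3) * l) ≤ X → SD η D l (4 * X) →
      (((Fintype.piFinset (fun i : Fin k => rg (σ i) X)).filter (fun m => AdX σ m ∧ (GX σ m X : ℝ) < X * Real.exp (-(l / 300)))).card : ℝ) ≤
        (X : ℝ) ^ k * Real.exp (-(κ * l)) := by
  obtain ⟨C, hC, hPS⟩ := hPS
  set K : ℕ := k + 1 with hKdef
  have hK1 : (1 : ℝ) ≤ (K : ℝ) := by rw [hKdef]; push_cast; linarith [(Nat.cast_nonneg k : (0 : ℝ) ≤ k)]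
  have hK0 : (0 : ℝ) < (K : ℝ) := by linarith
  set c₁ : ℕ := ⌈4 ^ K * (2 * (K : ℝ) + 2) * C⌉₊ with hc₁
  set A₂ : ℝ := 2 ^ K * ((K : ℝ) + 2) with hA₂
  have h2K : (1 : ℝ) ≤ 2 ^ K := one_le_pow₀ (by norm_num)
  have hA₂1 : 1 ≤ A₂ := by rw [hA₂]; nlinarith only [h2K, hK1]
  set ε : ℝ := 1 / (6 * (A₂ * K ^ 2)) with hε
  have hε0 : 0 < ε := by positivity
  have hε1 : ε ≤ 1 := by
    rw [hε, div_le_one (by positivity)]
    have h1 : (1 : ℝ) ≤ K ^ 2 := one_le_pow₀ hK1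
    nlinarith only [h1, hA₂1]
  have hε2 : A₂ * ((K : ℝ) ^ 2 * ε) ≤ 1 / 6 := by
    rw [hε]
    apply le_of_eq
    field_simp
  set η : ℝ := 1 / (64 * K) with hη
  set Cst : ℝ := 50 * 5 ^ k + 17 * (((k : ℝ) + 1) ^ 2 * 2 ^ k) with hCst
  have hCst0 : 0 < Cst := by positivity
  obtain ⟨l₁, hl₁⟩ := eventually_atTop.1 ((poly_exp (show (0 : ℝ) < 1 / 250 by norm_num) (c₁ + 4) (4 * K)).and
    (poly_exp (show (0 : ℝ) < ε / 4000 by positivity) 0 Cst))
  refine ⟨2 * K + c₁ + 5, η, ε / 4000, max l₁ (max (max (10 ^ 4) (4 * ((K : ℝ) * (2 * (K : ℝ)) ^ (2 * K)))) (max (1000 * (K : ℝ)) (24000 * A₂))),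
    by positivity, ?_, by positivity, ?_⟩
  · rw [hη, div_le_div_iff₀ (by positivity) (by norm_num)]
    linarith
  intro l hl X hX hSD
  have hll₁ : l₁ ≤ l := (le_max_left _ _).trans hl
  have hl4 : 10 ^ 4 ≤ l := ((le_max_left _ _).trans (le_max_left _ _)).trans ((le_max_right _ _).trans hl)
  have hl2 : 4 * ((K : ℝ) * (2 * (K : ℝ)) ^ (2 * K)) ≤ l := ((le_max_right _ _).trans (le_max_left _ _)).trans ((le_max_right _ _).trans hl)
  have hl3 : 1000 * (K : ℝ) ≤ l := ((le_max_left _ _).trans (le_max_right _ _)).trans ((le_max_right _ _).trans hl)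
  have hl5 : 24000 * A₂ ≤ l := ((le_max_right _ _).trans (le_max_right _ _)).trans ((le_max_right _ _).trans hl)
  obtain ⟨hF1, hF2⟩ := hl₁ l hll₁
  have hl0 : 0 < l := by linarith
  obtain ⟨w, hw1, hw⟩ := fin1X (k := k) (D := 2 * K + c₁ + 5) (c₁ := c₁) (η := η) (l := l) (ε := ε) (C := C) (X := X) (σ := σ) hTE hMD hEV hREF hRC hRCX hMB hCN
    (by
      rw [← hKdef, hη]
      apply le_of_eq
      field_simp) rfl (fun Q hQ => hPS l (by linarith) Q hQ) (by rw [← hKdef]; exact Nat.le_ceil _) hl4 hl2 hl3 hl5 hε0.le hε2 (by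
      refine le_trans ?_ (hF1.trans (le_of_eq ?_))
      · rw [← hKdef]
      · congr 1; ring) hX hSD
  have hX0 : (0 : ℝ) < X := lt_of_lt_of_le (Real.exp_pos _) hX
  have hXpos : 1 ≤ X := by exact_mod_cast hX0
  have hw0 : (1 : ℝ) ≤ w := by linarith
  have hwpos : 1 ≤ w := by exact_mod_cast hw0
  set S₀ := (Fintype.piFinset (fun i : Fin k => rg (σ i) X)) with hS₀
  have hbd : ((S₀.filter (fun m => ∃ i j : Fin (k + 1), i ≠ j ∧ (es σ m i = es σ m j ∨ ε < Sg w (es σ m i - es σ m j)))).card : ℝ) ≤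
      ((k : ℝ) + 1) ^ 2 * (2 ^ k * ((X : ℝ) ^ k / X) + 16 * (2 ^ k * (X : ℝ) ^ k) * Real.exp (-(ε * w))) := by
    have g1 := hBD hRK k w (2 * X) σ ε hwpos (by omega)
    have g2 : ((S₀.filter (fun m => ∃ i j : Fin (k + 1), i ≠ j ∧ (es σ m i = es σ m j ∨ ε < Sg w (es σ m i - es σ m j)))).card : ℝ) ≤
        (((Fintype.piFinset (fun _ : Fin k => Icc 1 (2 * X))).filter (fun m => ∃ i j : Fin (k + 1), i ≠ j ∧ (es σ m i = es σ m j ∨ ε < Sg w (es σ m i - es σ m j)))).card : ℝ) := by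
      apply Nat.cast_le.2
      apply card_le_card
      intro m hm
      rw [Finset.mem_filter, hS₀, Fintype.mem_piFinset] at hm
      rw [Finset.mem_filter, Fintype.mem_piFinset]
      refine ⟨fun i => ?_, hm.2⟩
      have h9 := hm.1 i
      unfold rg at h9
      split_ifs at h9
      · have := Finset.mem_Ioc.1 h9
        exact Finset.mem_Icc.2 ⟨by omega, this.2⟩
      · have := Finset.mem_Icc.1 h9
        exact Finset.mem_Icc.2 ⟨this.1, by omega⟩
    refine g2.trans (g1.trans ?_)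
    push_cast
    have e1 : (2 * (X : ℝ)) ^ k = 2 ^ k * (X : ℝ) ^ k := mul_pow _ _ _
    rw [e1]
    apply mul_le_mul_of_nonneg_left _ (by positivity)
    have e2 : 2 ^ k * (X : ℝ) ^ k / (2 * X) ≤ 2 ^ k * ((X : ℝ) ^ k / X) := by
      rw [div_le_iff₀ (by positivity)]
      have : 2 ^ k * ((X : ℝ) ^ k / X) * (2 * X) = 2 * (2 ^ k * (X : ℝ) ^ k) := by field_simp
      rw [this]
      have : (0 : ℝ) ≤ 2 ^ k * (X : ℝ) ^ k := by positivity
      linarith
    linarith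
  set e : ℝ := Real.exp (-(ε * (l / 2000))) with he
  have he0 : 0 < e := Real.exp_pos _
  have h1 : Real.exp (-(ε * w)) ≤ e := Real.exp_le_exp.2 (by
    have := mul_le_mul_of_nonneg_left hw1 hε0.le
    linarith)
  have hεl : ε * (l / 2000) ≤ l / 2000 := mul_le_of_le_one_left (by positivity) hε1
  have h2 : Real.exp (-(l / 200)) ≤ e := Real.exp_le_exp.2 (by linarith)
  have h3 : 1 / (X : ℝ) ≤ e := by
    have h4 : 1 / (X : ℝ) ≤ Real.exp (-((K + 3) * l)) := by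
      rw [Real.exp_neg, ← one_div]
      exact one_div_le_one_div_of_le (Real.exp_pos _) hX
    refine h4.trans (Real.exp_le_exp.2 ?_)
    nlinarith only [hεl, hl0, hK0]
  have hsub : S₀.filter (fun m => AdX σ m ∧ (GX σ m X : ℝ) < X * Real.exp (-(l / 300))) ⊆
      S₀.filter (fun m => AdX σ m ∧ (GX σ m X : ℝ) < X * Real.exp (-(l / 300)) ∧
        ¬ ∃ i j : Fin (k + 1), i ≠ j ∧ (es σ m i = es σ m j ∨ ε < Sg w (es σ m i - es σ m j))) ∪
      S₀.filter (fun m => ∃ i j : Fin (k + 1), i ≠ j ∧ (es σ m i = es σ m j ∨ ε < Sg w (es σ m i - es σ m j))) := by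
    intro m hm
    rw [Finset.mem_filter] at hm
    rw [Finset.mem_union, Finset.mem_filter, Finset.mem_filter]
    by_cases hsg : ∃ i j : Fin (k + 1), i ≠ j ∧ (es σ m i = es σ m j ∨ ε < Sg w (es σ m i - es σ m j))
    · exact Or.inr ⟨hm.1, hsg⟩
    · exact Or.inl ⟨hm.1, hm.2.1, hm.2.2, hsg⟩
  have hcard := (card_le_card hsub).trans (card_union_le _ _)
  have hcardr : ((S₀.filter (fun m => AdX σ m ∧ (GX σ m X : ℝ) < X * Real.exp (-(l / 300)))).card : ℝ) ≤
      50 * 5 ^ k * (X : ℝ) ^ k * Real.exp (-(l / 200)) + ((k : ℝ) + 1) ^ 2 * (2 ^ k * ((X : ℝ) ^ k / X) + 16 * (2 ^ k * (X : ℝ) ^ k) * Real.exp (-(ε * w))) := by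
    refine (Nat.cast_le.2 hcard).trans ?_
    rw [Nat.cast_add]
    exact add_le_add hw hbd
  refine hcardr.trans ?_
  have hXk : 0 < (X : ℝ) ^ k := by positivity
  have h5 : 50 * 5 ^ k * (X : ℝ) ^ k * Real.exp (-(l / 200)) ≤ 50 * 5 ^ k * (X : ℝ) ^ k * e := mul_le_mul_of_nonneg_left h2 (by positivity)
  have h6 : ((k : ℝ) + 1) ^ 2 * (2 ^ k * ((X : ℝ) ^ k / X) + 16 * (2 ^ k * (X : ℝ) ^ k) * Real.exp (-(ε * w))) ≤
      ((k : ℝ) + 1) ^ 2 * (2 ^ k * ((X : ℝ) ^ k * e) + 16 * (2 ^ k * (X : ℝ) ^ k) * e) := by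
    apply mul_le_mul_of_nonneg_left _ (by positivity)
    apply add_le_add
    · apply mul_le_mul_of_nonneg_left _ (by positivity)
      rw [div_eq_mul_one_div]
      exact mul_le_mul_of_nonneg_left h3 hXk.le
    · exact mul_le_mul_of_nonneg_left h1 (by positivity)
  have h7 : 50 * 5 ^ k * (X : ℝ) ^ k * e + ((k : ℝ) + 1) ^ 2 * (2 ^ k * ((X : ℝ) ^ k * e) + 16 * (2 ^ k * (X : ℝ) ^ k) * e) = (X : ℝ) ^ k * (Cst * e) := by
    rw [hCst]; ring
  have h8 : Cst * e ≤ Real.exp (-(ε / 4000 * l)) := by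
    rw [pow_zero, mul_one] at hF2
    calc Cst * e ≤ Real.exp (ε / 4000 * l) * e := mul_le_mul_of_nonneg_right hF2 he0.le
      _ = Real.exp (ε / 4000 * l + -(ε * (l / 2000))) := by rw [he, Real.exp_add]
      _ = _ := by congr 1; ring
  calc _ ≤ (X : ℝ) ^ k * (Cst * e) := by linarith
    _ ≤ _ := mul_le_mul_of_nonneg_left h8 hXk.le

open Classical in
theorem fin3X (hTE : S_TE) (hMD : S_MDZ) (hEV : S_EV) (hREF : S_REF) (hRC : S_RC) (hRCX : S_RCX) (hMB : S_MBZ) (hCN : S_CN) (hPS : S_PS) (hRK : S_RK) (hBD : S_BDX) (hCH : S_CH) (k : ℕ) (σ : Fin k → Bool) :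
    ∀ᶠ X : ℕ in atTop,
      (((Fintype.piFinset (fun i : Fin k => rg (σ i) X)).filter (fun m => AdX σ m ∧
        (GX σ m X : ℝ) < 2 * (X * Real.exp (-(Real.log X / Real.log (Real.log X) ^ 4))))).card : ℝ) ≤
        (X : ℝ) ^ k * Real.exp (-(Real.log X / Real.log (Real.log X) ^ 13)) := by
  obtain ⟨D, η, κ, l₀, hη, hη2, hκ, hfin⟩ := fin2X hTE hMD hEV hREF hRC hRCX hMB hCN hPS hRK hBD k σ
  obtain ⟨X₀, hX₀⟩ := hCH η D hη hη2
  have hlog : Tendsto (fun X : ℕ => Real.log (X : ℝ)) atTop atTop := Real.tendsto_log_atTop.comp tendsto_natCast_atTop_atTop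
  have hloglog : Tendsto (fun X : ℕ => Real.log (Real.log (X : ℝ))) atTop atTop := Real.tendsto_log_atTop.comp hlog
  -- log L ^ 12 * max l₀ 1 ≤ L
  have hbig : ∀ᶠ L : ℝ in atTop, Real.log L ^ 12 * (max l₀ 1) ≤ L := by
    have h1 : (fun L : ℝ => Real.log L ^ 12) =o[atTop] (fun L : ℝ => L) := by
      exact Real.isLittleO_pow_log_id_atTop (n := 12)
    have h2 := h1.bound (show (0 : ℝ) < 1 / (max l₀ 1) by positivity)
    filter_upwards [h2, eventually_ge_atTop (1 : ℝ)] with L hL hL1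
    rw [Real.norm_of_nonneg (pow_nonneg (Real.log_nonneg hL1) _), Real.norm_of_nonneg (by linarith), div_mul_eq_mul_div, one_mul,
      le_div_iff₀ (by positivity)] at hL
    exact hL
  filter_upwards [tendsto_natCast_atTop_atTop.eventually (eventually_ge_atTop X₀), hlog.eventually hbig,
    hloglog.eventually (eventually_ge_atTop (max 1 (max (1 / κ) (((k + 1 : ℕ) : ℝ) + 3)))), eventually_ge_atTop 1, hlog.eventually (eventually_ge_atTop 1)] with X h1 h2 h3 h4 h5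
  set L : ℝ := Real.log X with hL
  set u : ℝ := Real.log L with hu
  have hu1 : 1 ≤ u := (le_max_left _ _).trans h3
  have huκ : 1 / κ ≤ u := ((le_max_left _ _).trans (le_max_right _ _)).trans h3
  have huK : ((k + 1 : ℕ) : ℝ) + 3 ≤ u := ((le_max_right _ _).trans (le_max_right _ _)).trans h3
  have hu0 : 0 < u := by linarith
  have hL0 : 0 < L := by linarith
  have hX0 : (0 : ℝ) < X := by exact_mod_cast h4
  obtain ⟨l, hl1, hl2, hSD⟩ := hX₀ X h1
  rw [← hL, ← hu] at hl1 hl2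
  have hl₀ : l₀ ≤ l := by
    refine le_trans ?_ hl1
    rw [le_div_iff₀ (by positivity)]
    have h6 : l₀ * u ^ 12 ≤ max l₀ 1 * u ^ 12 := mul_le_mul_of_nonneg_right (le_max_left _ _) (by positivity)
    linarith
  have hl0 : 0 < l := lt_of_lt_of_le (by positivity) hl1
  have hexpX : Real.exp ((((k + 1 : ℕ) : ℝ) + 3) * l) ≤ X := by
    rw [← Real.le_log_iff_exp_le hX0, ← hL]
    have h6 : (((k + 1 : ℕ) : ℝ) + 3) * l ≤ u ^ 4 * (L / u ^ 4) := by
      apply mul_le_mul _ hl2 hl0.le (by positivity)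
      exact huK.trans (le_self_pow₀ hu1 (by norm_num))
    have h7 : u ^ 4 * (L / u ^ 4) = L := by field_simp
    linarith
  have hmain := hfin l hl₀ X hexpX hSD
  have hmono : (((Fintype.piFinset (fun i : Fin k => rg (σ i) X)).filter (fun m => AdX σ m ∧ (GX σ m X : ℝ) < 2 * (X * Real.exp (-(L / u ^ 4))))).card : ℝ) ≤
      (((Fintype.piFinset (fun i : Fin k => rg (σ i) X)).filter (fun m => AdX σ m ∧ (GX σ m X : ℝ) < X * Real.exp (-(l / 300)))).card : ℝ) := by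
    have h61 : 1 ≤ l := by
      refine le_trans ?_ hl1
      rw [le_div_iff₀ (by positivity)]
      have h6 : 1 * u ^ 12 ≤ max l₀ 1 * u ^ 12 := mul_le_mul_of_nonneg_right (le_max_right _ _) (by positivity)
      linarith
    have h62 : (2 : ℝ) ≤ Real.exp (L / u ^ 4 - l / 300) := by
      have h63 := Real.add_one_le_exp (L / u ^ 4 - l / 300 - 299 / 300)
      have h64 : Real.exp (L / u ^ 4 - l / 300) = Real.exp (L / u ^ 4 - l / 300 - 299 / 300) * Real.exp (299 / 300) := by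
        rw [← Real.exp_add]; congr 1; ring
      have h65 : (2 : ℝ) ≤ Real.exp (299 / 300) := by
        have h66 := Real.quadratic_le_exp_of_nonneg (show (0 : ℝ) ≤ 299 / 300 by norm_num)
        refine le_trans ?_ h66
        norm_num
      have h67 : 1 ≤ Real.exp (L / u ^ 4 - l / 300 - 299 / 300) := Real.one_le_exp (by linarith)
      rw [h64]
      nlinarith
    have h6 : 2 * Real.exp (-(L / u ^ 4)) ≤ Real.exp (-(l / 300)) := by
      calc 2 * Real.exp (-(L / u ^ 4)) ≤ Real.exp (L / u ^ 4 - l / 300) * Real.exp (-(L / u ^ 4)) :=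
            mul_le_mul_of_nonneg_right h62 (Real.exp_pos _).le
        _ = Real.exp (-(l / 300)) := by rw [← Real.exp_add]; congr 1; ring
    have h7 := card_le_card (show (Fintype.piFinset (fun i : Fin k => rg (σ i) X)).filter (fun m => AdX σ m ∧ (GX σ m X : ℝ) < 2 * (X * Real.exp (-(L / u ^ 4)))) ⊆
      (Fintype.piFinset (fun i : Fin k => rg (σ i) X)).filter (fun m => AdX σ m ∧ (GX σ m X : ℝ) < X * Real.exp (-(l / 300))) from by
        intro m hm
        rw [Finset.mem_filter] at hm ⊢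
        exact ⟨hm.1, hm.2.1, lt_of_lt_of_le hm.2.2 (by have := mul_le_mul_of_nonneg_left h6 hX0.le; linarith)⟩)
    exact_mod_cast h7
  refine hmono.trans (hmain.trans ?_)
  apply mul_le_mul_of_nonneg_left _ (by positivity)
  apply Real.exp_le_exp.2
  have h8 : L / u ^ 13 ≤ κ * l := by
    have h9 : κ * (L / u ^ 12) ≤ κ * l := mul_le_mul_of_nonneg_left hl1 hκ.le
    refine le_trans ?_ h9
    rw [div_le_iff₀ (by positivity)]
    have h10 : κ * (L / u ^ 12) * u ^ 13 = (κ * u) * L := by field_simp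
    rw [h10]
    have h11 : 1 ≤ κ * u := by
      rw [div_le_iff₀ hκ] at huκ
      linarith
    exact le_mul_of_one_le_left hL0.le h11
  linarith

end Pool.Agent.J4H81.GB
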