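import Pool.Agent.J4H32.MV.MainGY

/-!
# Project GY: the classes occupied by a vector and by its negative (helper81)
-/

set_option autoImplicit false

namespace Pool.Agent.J4H81.GB

open Finset
open Pool.Agent.J4H32.MV

theorem nuZ_neg {K : ℕ} (a : Fin K → ℤ) (p : ℕ) : nuZ (fun j => -a j) p = nuZ a p := by
  unfold nuZ
  have e : (univ : Finset (Fin K)).image (fun j => (-a j) % (p : ℤ)) =
      ((univ : Finset (Fin K)).image (fun j => a j % (p : ℤ))).image (fun x => (-x) % (p : ℤ)) := by
    rw [image_image]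
    apply image_congr
    intro j _
    simp only [Function.comp]
    have h : -(a j % (p : ℤ)) ≡ -a j [ZMOD p] := (Int.mod_modEq (a j) p).neg
    exact h.symm
  rw [e]
  apply card_image_of_injOn
  intro x hx y hy hxy
  simp only at hxy
  rw [Finset.mem_coe, Finset.mem_image] at hx hy
  obtain ⟨i, -, rfl⟩ := hx
  obtain ⟨j, -, rfl⟩ := hy
  have h1 : -(a i % (p : ℤ)) ≡ -(a j % (p : ℤ)) [ZMOD p] := hxy
  have h2 := h1.neg
  rw [neg_neg, neg_neg] at h2
  unfold Int.ModEq at h2
  rwa [Int.emod_emod, Int.emod_emod] at h2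

end Pool.Agent.J4H81.GB
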