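import Pool.Agent.J4H32.MV.S1
import Pool.Agent.J4H32.MV.S4
import Pool.Agent.J4H32.MV.S5

/-!
# Project GB: simultaneous Goldbach (helper81), exact statements

For every `k` and every large `X`, all but `X ^ k exp (- log X / (log log X) ^ 13)` of the admissible vectors `N` in `(X, 2 X] ^ k`
have `≥ X exp (- log X / (log log X) ^ 4)` primes `p ≤ X` such that all the `N_i - p` are primes. Adaptation of project MV of helper32.
-/

set_option autoImplicit false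

namespace Pool.Agent.J4H81.GB

open Finset MeasureTheory Filter
open Pool.Agent.J4H81.PT Pool.Agent.J4H32.MV

/-- (MDZ) `S_MD` for integral shifts: `GG W Q` is periodic modulo `∏ q ≤ Q, q`, so add a large common multiple of it to all the `C j`
(the differences do not change) -/
def S_MDZ : Prop := ∀ (W Q J T w : ℕ) (C : Fin J → ℤ) (V : ℕ → ℝ), 1 ≤ Q → 2 ≤ w → (∀ p : ℕ, p.Prime → p ≤ w → p ∣ W) →
  V T = 0 → (∀ s, 0 ≤ V s) → Function.Injective C →
  |∑ s ∈ range T, V s * ∏ j, GG W Q (C j + W * s) - ∑ s ∈ range T, V s| ≤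
    (Real.exp (2 ^ J * ((J : ℝ) + 2) * (2 / w + ∑ i : Fin J, ∑ j : Fin J, Sg w (C i - C j))) - 1) * ∑ s ∈ range T, V s +
      2 * (Q : ℝ) ^ (2 * J) * TV V T

/-- (MBZ) the same for `S_MB` -/
def S_MBZ : Prop := ∀ (K W Q T : ℕ) (C : Fin K → ℤ) (S : Finset (Fin K)), 1 ≤ Q → 1 ≤ T →
  ∑ s ∈ range T, ∏ j ∈ S, GG W Q (C j + W * s) ^ 2 ≤
    Real.exp (4 ^ K * (2 * (K : ℝ) + 2) * ∑ p ∈ (range (Q + 1)).filter Nat.Prime, 1 / (p : ℝ)) * T + 4 * (Q : ℝ) ^ (4 * K)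

/-- (MZ) both from the natural versions -/
def S_MZ : Prop := (S_MD → S_MDZ) ∧ (S_MB → S_MBZ)

/-- (EV) the model is even (`hq q n` depends only on the primes dividing `q` and `n`) -/
def S_EV : Prop := ∀ (W Q : ℕ) (n : ℤ), GG W Q (-n) = GG W Q n

/-- reflection of a function on `[0, T)` -/
noncomputable def rf (T : ℕ) (H : ℕ → ℝ) (s : ℕ) : ℝ := if s < T then H (T - 1 - s) else 0

/-- (REF) the transform of a reflected function has the same modulus at `-α`; `MA P δ` is symmetric and has period one -/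
def S_REF : Prop := ∀ (T P : ℕ) (δ : ℝ) (H : ℕ → ℝ),
  (∫ α in (0 : ℝ)..1, (MA P δ).indicator (fun α => ‖hat (cx (rf T H)) T α‖ ^ 2) α =
    ∫ α in (0 : ℝ)..1, (MA P δ).indicator (fun α => ‖hat (cx H) T α‖ ^ 2) α) ∧
  (∀ m : ℝ, (∀ α : ℝ, α ∉ MA P δ → ‖hat (cx H) T α‖ ≤ m) → ∀ α : ℝ, α ∉ MA P δ → ‖hat (cx (rf T H)) T α‖ ≤ m)

/-- no local obstruction for `n, N_1 - n, ..., N_k - n` -/
def AdG {k : ℕ} (N : Fin k → ℕ) : Prop := ∀ p : ℕ, p.Prime → ∃ r : ℕ, ¬ p ∣ r ∧ ∀ i, ¬ (p : ℤ) ∣ (N i : ℤ) - r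

/-- (RCG) the choice of the class, from `S_RC` with `a = (0, (W - 1) N_i)` (`≡ - N_i` modulo `W`; primes `p > w ≥ k + 1` by counting classes)
and `B ∪ - B`: `b + a_j` is then `b` and `- (N_i - b)` modulo `W`. For the uniformity in `N` see `exists_b` in J4H32/MV/Fa.lean. -/
def S_RCG : Prop := S_RC → ∀ (k w : ℕ) (B : Finset (ZMod (primorial w))), k + 1 ≤ w → 2 ≤ w →
  2 * ((k + 1 : ℕ) : ℝ) * B.card * ((2 * ((k + 1 : ℕ) : ℝ)) ^ (2 * (k + 1)) * (w : ℝ) ^ (2 * (k + 1))) < primorial w → ∀ ρ : Fin k → ℕ,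
  ∃ b < primorial w, ∀ N : Fin k → ℕ, AdG N → (fun i => N i % primorial w) = ρ →
    (b.Coprime (primorial w) ∧ (b : ZMod (primorial w)) ∉ B) ∧
    ∀ i, IsUnit ((N i : ZMod (primorial w)) - (b : ZMod (primorial w))) ∧ ((N i : ZMod (primorial w)) - (b : ZMod (primorial w))) ∉ B

end Pool.Agent.J4H81.GB
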